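import Mathlib

/-!
# Regular graphs of girth six from finite fields
-/

namespace Pool.Agent.Lib.Helper15

open SimpleGraph Finset

set_option linter.unusedSimpArgs false
set_option linter.unreachableTactic false
set_option linter.unusedTactic false

/-- The incidence graph of a relation `I` between points and lines. -/
def incGraph {P L : Type*} (I : P → L → Prop) : SimpleGraph (P ⊕ L) where
  Adj x y := match x, y with
    | .inl p, .inr l => I p l
    | .inr l, .inl p => I p l
    | _, _ => False
  symm := ⟨by rintro (p | l) (p' | l') h <;> first | exact h | exact h.elim⟩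
  loopless := ⟨by rintro (p | l) h <;> exact h⟩

theorem incGraph_colorable {P L : Type*} (I : P → L → Prop) : (incGraph I).Colorable 2 := by
  refine ⟨Coloring.mk (fun x => if x.isLeft then 0 else 1) ?_⟩
  rintro (p | l) (p' | l') h
  · exact h.elim
  · simp
  · simp
  · exact h.elim

theorem incGraph_six_le {P L : Type*} (I : P → L → Prop)
    (hI : ∀ p p' l l', I p l → I p' l → I p l' → I p' l' → p = p' ∨ l = l')
    (v : P ⊕ L) (c : (incGraph I).Walk v v) (hc : c.IsCycle) : 6 ≤ c.length := by
  have heven : Even c.length := two_colorable_iff_forall_loop_even.1 (incGraph_colorable I) v c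
  have h3 := hc.three_le_length
  by_contra hlt
  have h4 : c.length = 4 := by
    obtain ⟨r, hr⟩ := heven
    omega
  match c, hc, h4 with
  | .cons (v := b) h₁ (.cons (v := c') h₂ (.cons (v := d) h₃ (.cons h₄ .nil))), hc, _ =>
    have hs := hc.support_nodup
    simp only [Walk.support_cons, Walk.support_nil, List.tail_cons, List.nodup_cons,
      List.mem_cons, not_or] at hs
    obtain ⟨⟨-, hbd, -⟩, ⟨-, hcv, -⟩, -⟩ := hs
    rcases v with p | l <;> rcases b with p' | l' <;> rcases c' with p'' | l'' <;>
      rcases d with p''' | l''' <;>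
      first
      | exact h₁.elim
      | exact h₂.elim
      | exact h₃.elim
      | exact h₄.elim
      | skip
    · rcases hI p p'' l' l''' h₁ h₂ h₄ h₃ with h | h
      · exact hcv (by rw [h])
      · exact hbd (by rw [h])
    · rcases hI p' p''' l l'' h₁ h₄ h₂ h₃ with h | h
      · exact hbd (by rw [h])
      · exact hcv (by rw [h])

/-- A triangle of the incidence structure gives a hexagon. -/
theorem incGraph_egirth {P L : Type*} (I : P → L → Prop)
    (hI : ∀ p p' l l', I p l → I p' l → I p l' → I p' l' → p = p' ∨ l = l')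
    {p₁ p₂ p₃ : P} {l₁ l₂ l₃ : L} (h12 : p₁ ≠ p₂) (h13 : p₁ ≠ p₃) (h23 : p₂ ≠ p₃)
    (k12 : l₁ ≠ l₂) (k13 : l₁ ≠ l₃) (k23 : l₂ ≠ l₃)
    (a3 : I p₁ l₃) (b3 : I p₂ l₃) (a1 : I p₂ l₁) (b1 : I p₃ l₁) (a2 : I p₃ l₂) (b2 : I p₁ l₂) :
    (incGraph I).egirth = 6 := by
  apply le_antisymm
  · let G := incGraph I
    have e1 : G.Adj (.inl p₁) (.inr l₃) := a3
    have e2 : G.Adj (.inr l₃) (.inl p₂) := b3
    have e3 : G.Adj (.inl p₂) (.inr l₁) := a1
    have e4 : G.Adj (.inr l₁) (.inl p₃) := b1
    have e5 : G.Adj (.inl p₃) (.inr l₂) := a2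
    have e6 : G.Adj (.inr l₂) (.inl p₁) := b2
    have hcyc : (Walk.cons e1 (.cons e2 (.cons e3 (.cons e4 (.cons e5
        (.cons e6 .nil)))))).IsCycle := by
      rw [Walk.cons_isCycle_iff]
      refine ⟨?_, ?_⟩
      · rw [Walk.isPath_def]
        simp [h12, h13, h23, k12, k13, k23, h12.symm, h13.symm, h23.symm, k12.symm, k13.symm,
          k23.symm]
      · simp [h12, h13, h23, k12, k13, k23, h12.symm, h13.symm, h23.symm, k12.symm, k13.symm,
          k23.symm]
    have := egirth_le_length hcyc
    simpa using this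
  · rw [le_egirth]
    intro v c hc
    exact_mod_cast incGraph_six_le I hI v c hc

open Classical in
theorem incGraph_regular {P L : Type*} [Fintype P] [Fintype L] (I : P → L → Prop) (k : ℕ)
    [DecidableRel (incGraph I).Adj]
    (hP : ∀ p, #{l : L | I p l} = k) (hL : ∀ l, #{p : P | I p l} = k) :
    (incGraph I).IsRegularOfDegree k := by
  rintro (p | l)
  · rw [← hP p, ← card_neighborFinset_eq_degree]
    rw [← card_map (⟨Sum.inr, Sum.inr_injective⟩ : L ↪ P ⊕ L)]
    congr 1
    ext x
    simp only [mem_neighborFinset, mem_map, mem_filter, mem_univ, true_and,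
      Function.Embedding.coeFn_mk]
    rcases x with p' | l'
    · constructor
      · intro h; exact h.elim
      · rintro ⟨a, -, ha⟩; exact absurd ha (by simp)
    · constructor
      · intro h; exact ⟨l', h, rfl⟩
      · rintro ⟨a, h, ha⟩
        have := Sum.inr_injective ha
        subst this; exact h
  · rw [← hL l, ← card_neighborFinset_eq_degree]
    rw [← card_map (⟨Sum.inl, Sum.inl_injective⟩ : P ↪ P ⊕ L)]
    congr 1
    ext x
    simp only [mem_neighborFinset, mem_map, mem_filter, mem_univ, true_and,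
      Function.Embedding.coeFn_mk]
    rcases x with p' | l'
    · constructor
      · intro h; exact ⟨p', h, rfl⟩
      · rintro ⟨a, h, ha⟩
        have := Sum.inl_injective ha
        subst this; exact h
    · constructor
      · intro h; exact h.elim
      · rintro ⟨a, -, ha⟩; exact absurd ha (by simp)

/-- Transfer of a regular graph with given girth to `Fin n`. -/
theorem exists_fin_graph {W : Type*} [Fintype W] (G : SimpleGraph W) [DecidableRel G.Adj]
    {k n : ℕ} {g : ℕ∞} (hk : G.IsRegularOfDegree k) (hg : G.egirth = g) (hn : Fintype.card W = n) :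
    ∃ (H : SimpleGraph (Fin n)) (_ : DecidableRel H.Adj), H.IsRegularOfDegree k ∧ H.egirth = g := by
  classical
  let e : W ≃ Fin n := Fintype.equivFinOfCardEq hn
  let H : SimpleGraph (Fin n) := G.map e.toEmbedding
  let φ : G ≃g H := Iso.map e G
  refine ⟨H, Classical.decRel _, ?_, ?_⟩
  · intro v
    obtain ⟨w, rfl⟩ := φ.surjective v
    rw [← hk w]
    have key : ∀ i₁ i₂ : Fintype (H.neighborSet (φ w)),
        @SimpleGraph.degree _ H (φ w) i₁ = @SimpleGraph.degree _ H (φ w) i₂ := by
      intro i₁ i₂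
      rw [Subsingleton.elim i₁ i₂]
    exact (key _ _).trans (φ.degree_eq w)
  · rw [← φ.egirth_eq, hg]

end Pool.Agent.Lib.Helper15

namespace Pool.Agent.Lib.Helper15

open SimpleGraph Finset

/-- For a finite field `F` with `q` elements and `3 ≤ k ≤ q` there is a `k`-regular graph of
girth `6` with `2 * k * q` vertices. -/
theorem exists_affine_graph (F : Type) [Field F] [Fintype F] (k : ℕ) (hk : 3 ≤ k)
    (hq : k ≤ Fintype.card F) :
    ∃ (H : SimpleGraph (Fin (2 * (k * Fintype.card F)))) (_ : DecidableRel H.Adj),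
      H.IsRegularOfDegree k ∧ H.egirth = 6 := by
  classical
  -- an element different from `0` and `1`
  obtain ⟨t, ht⟩ : ∃ t : F, t ∉ ({0, 1} : Finset F) := by
    by_contra! h
    have h1 : (univ : Finset F) ⊆ {0, 1} := fun x _ => h x
    have h2 := (card_le_card h1).trans card_le_two
    rw [card_univ] at h2
    omega
  simp only [mem_insert, mem_singleton, not_or] at ht
  obtain ⟨ht0, ht1⟩ := ht
  obtain ⟨X, hX, -, hXk⟩ := exists_subsuperset_card_eq (subset_univ ({0, 1, t} : Finset F))
    (card_le_three.trans hk) (by rwa [card_univ])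
  obtain ⟨M, hM, -, hMk⟩ := exists_subsuperset_card_eq (subset_univ ({0, 1, 1 - t⁻¹} : Finset F))
    (card_le_three.trans hk) (by rwa [card_univ])
  have hX0 : (0 : F) ∈ X := hX (by simp)
  have hX1 : (1 : F) ∈ X := hX (by simp)
  have hXt : t ∈ X := hX (by simp)
  have hM0 : (0 : F) ∈ M := hM (by simp)
  have hM1 : (1 : F) ∈ M := hM (by simp)
  have hMt : (1 - t⁻¹ : F) ∈ M := hM (by simp)
  let I : ({x // x ∈ X} × F) → ({x // x ∈ M} × F) → Prop := fun p l => p.2 = l.1.1 * p.1.1 + l.2
  have hIP : ∀ p, #{l | I p l} = k := by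
    rintro ⟨x, y⟩
    have : (univ.filter fun l : {x // x ∈ M} × F => I (x, y) l) =
        (univ : Finset {x // x ∈ M}).image (fun m => (m, y - m.1 * x.1)) := by
      ext ⟨m, b⟩
      simp only [mem_filter, mem_univ, true_and, mem_image, I, Prod.mk.injEq, exists_eq_left]
      constructor
      · intro h
        rw [h]; ring
      · intro h
        rw [← h]; ring
    rw [this, card_image_of_injective _ (fun a b h => (Prod.ext_iff.1 h).1), card_univ,
      Fintype.card_coe, hMk]
  have hIL : ∀ l, #{p | I p l} = k := by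
    rintro ⟨m, b⟩
    have : (univ.filter fun p : {x // x ∈ X} × F => I p (m, b)) =
        (univ : Finset {x // x ∈ X}).image (fun x => (x, m.1 * x.1 + b)) := by
      ext ⟨x, y⟩
      simp only [mem_filter, mem_univ, true_and, mem_image, I, Prod.mk.injEq, exists_eq_left]
      exact eq_comm
    rw [this, card_image_of_injective _ (fun a b h => (Prod.ext_iff.1 h).1), card_univ,
      Fintype.card_coe, hXk]
  have hI : ∀ p p' l l', I p l → I p' l → I p l' → I p' l' → p = p' ∨ l = l' := by
    rintro ⟨x, y⟩ ⟨x', y'⟩ ⟨m, b⟩ ⟨m', b'⟩ h1 h2 h3 h4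
    simp only [I] at h1 h2 h3 h4
    have h5 : (m.1 - m'.1) * (x.1 - x'.1) = 0 := by
      linear_combination h3 - h1 + h2 - h4
    rcases mul_eq_zero.1 h5 with h | h
    · right
      have hm : m = m' := Subtype.ext (sub_eq_zero.1 h)
      subst hm
      ext1
      · rfl
      · simp only
        linear_combination h3 - h1
    · left
      have hx : x = x' := Subtype.ext (sub_eq_zero.1 h)
      subst hx
      ext1
      · rfl
      · simp only
        linear_combination h1 - h2
  have htt : t - 1 ≠ 0 := sub_ne_zero.2 ht1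
  have hinv : t⁻¹ ≠ 0 := inv_ne_zero ht0
  have hm1 : (1 - t⁻¹ : F) ≠ 0 := by
    intro h
    apply ht1
    have : t⁻¹ = 1 := (sub_eq_zero.1 h).symm
    exact inv_eq_one.1 this
  have hm2 : (1 - t⁻¹ : F) ≠ 1 := by
    intro h
    exact hinv (by linear_combination -h)
  have hgirth : (incGraph I).egirth = 6 := by
    -- points (0,0), (1,0), (t, t-1)
    refine incGraph_egirth I hI (p₁ := (⟨0, hX0⟩, 0)) (p₂ := (⟨1, hX1⟩, 0))
      (p₃ := (⟨t, hXt⟩, t - 1)) (l₁ := (⟨1, hM1⟩, -1)) (l₂ := (⟨1 - t⁻¹, hMt⟩, 0))
      (l₃ := (⟨0, hM0⟩, 0)) ?_ ?_ ?_ ?_ ?_ ?_ ?_ ?_ ?_ ?_ ?_ ?_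
    · simp
    · simp [Ne.symm ht0]
    · simp [Ne.symm ht1]
    · simp [Ne.symm hm2]
    · simp
    · simp only [ne_eq, Prod.mk.injEq, Subtype.mk.injEq, hm1, false_and, not_false_eq_true]
    · simp [I]
    · simp [I]
    · simp [I]
    · simp [I]; ring
    · simp [I]; field_simp
    · simp [I]
  have hreg := incGraph_regular I k hIP hIL
  refine exists_fin_graph (incGraph I) hreg hgirth ?_
  rw [Fintype.card_sum, Fintype.card_prod, Fintype.card_prod, Fintype.card_coe, Fintype.card_coe,
    hXk, hMk]
  ring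

end Pool.Agent.Lib.Helper15

namespace Pool.Agent.Lib.Helper15

open SimpleGraph Finset
open scoped LinearAlgebra.Projectivization

/-- For a finite field `F` with `q` elements there is a `(q + 1)`-regular graph of girth `6` with
`2 * (q ^ 2 + q + 1)` vertices (the incidence graph of the projective plane over `F`). -/
theorem exists_plane_graph (F : Type) [Field F] [Fintype F] :
    ∃ (H : SimpleGraph (Fin (2 * (Fintype.card F ^ 2 + Fintype.card F + 1))))
      (_ : DecidableRel H.Adj), H.IsRegularOfDegree (Fintype.card F + 1) ∧ H.egirth = 6 := by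
  classical
  let P := ℙ F (Fin 3 → F)
  have : Fintype P := Fintype.ofFinite P
  let q := Fintype.card F
  have hq1 : 1 < q := Fintype.one_lt_card
  have hcardP : Fintype.card P = q ^ 2 + q + 1 := by
    have := Projectivization.card_of_finrank (k := F) (V := Fin 3 → F) (n := 3) (by simp)
    rw [Nat.card_eq_fintype_card, Nat.card_eq_fintype_card] at this
    rw [this]
    simp [sum_range_succ, q]
    ring
  have horder : Configuration.ProjectivePlane.order P P = q := by
    have h := Configuration.ProjectivePlane.card_points P P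
    rw [hcardP] at h
    nlinarith [h]
  let I : P → P → Prop := fun p l => p ∈ l
  have hI : ∀ p p' l l', I p l → I p' l → I p l' → I p' l' → p = p' ∨ l = l' := by
    intro p p' l l' h1 h2 h3 h4
    exact Configuration.Nondegenerate.eq_or_eq h1 h2 h3 h4
  have hIP : ∀ p, #{l | I p l} = q + 1 := by
    intro p
    have h := Configuration.ProjectivePlane.lineCount_eq (P := P) (L := P) p
    rw [horder, Configuration.lineCount, Nat.card_eq_fintype_card, Fintype.card_subtype] at h
    exact h
  have hIL : ∀ l, #{p | I p l} = q + 1 := by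
    intro l
    have h := Configuration.ProjectivePlane.pointCount_eq (P := P) (L := P) l
    rw [horder, Configuration.pointCount, Nat.card_eq_fintype_card, Fintype.card_subtype] at h
    exact h
  -- a triangle
  obtain ⟨p₁, -, -, -, l₂, -, h12, -⟩ := Configuration.ProjectivePlane.exists_config (P := P) (L := P)
  obtain ⟨p₂, p₃, hp2, hp3, hp23⟩ : ∃ a b, I a l₂ ∧ I b l₂ ∧ a ≠ b := by
    have h : 1 < #{p | I p l₂} := by rw [hIL]; omega
    obtain ⟨a, ha, b, hb, hab⟩ := one_lt_card.1 h
    simp only [mem_filter, mem_univ, true_and] at ha hb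
    exact ⟨a, b, ha, hb, hab⟩
  have hne2 : p₁ ≠ p₂ := by rintro rfl; exact h12 hp2
  have hne3 : p₁ ≠ p₃ := by rintro rfl; exact h12 hp3
  obtain ⟨h3a, h3b⟩ := Configuration.HasLines.mkLine_ax (P := P) (L := P) hne2
  obtain ⟨h2a, h2b⟩ := Configuration.HasLines.mkLine_ax (P := P) (L := P) hne3
  set m₃ : P := Configuration.HasLines.mkLine hne2
  set m₂ : P := Configuration.HasLines.mkLine hne3
  have hl2 : l₂ ≠ m₂ := by intro h; exact h12 (h ▸ h2a)
  have hl3 : l₂ ≠ m₃ := by intro h; exact h12 (h ▸ h3a)
  have hm : m₂ ≠ m₃ := by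
    intro h
    rcases hI p₂ p₃ l₂ m₂ hp2 hp3 (h ▸ h3b) h2b with h' | h'
    · exact hp23 h'
    · exact hl2 h'
  have hgirth : (incGraph I).egirth = 6 :=
    incGraph_egirth I hI (p₁ := p₁) (p₂ := p₂) (p₃ := p₃) (l₁ := l₂) (l₂ := m₂) (l₃ := m₃)
      hne2 hne3 hp23 hl2 hl3 hm h3a h3b hp2 hp3 h2b h2a
  have hreg := incGraph_regular I (q + 1) hIP hIL
  refine exists_fin_graph (incGraph I) hreg hgirth ?_
  rw [Fintype.card_sum, hcardP]
  ring

end Pool.Agent.Lib.Helper15
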