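import Mathlib

/-!
# Odd girth versus the Moore bound for graphs of even girth

Let `G` be a finite graph of minimum degree at least `k` without cycles of length less than `2 * m` and let `L` be a
lower bound on the lengths of its odd cycles. If `G` is not bipartite then
`L * ∑ i ∈ range m, (k - 1) ^ i ≤ m * |V|`.
-/

namespace Pool.Agent.Lib.Helper15

open SimpleGraph Finset

variable {V : Type*} {G : SimpleGraph V}

/-- Every closed walk of odd length contains an odd cycle that is not longer. -/
theorem exists_odd_cycle_le : ∀ (n : ℕ) {u : V} (w : G.Walk u u), w.length = n → Odd w.length →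
    ∃ (v : V) (c : G.Walk v v), c.IsCycle ∧ Odd c.length ∧ c.length ≤ n := by
  intro n
  induction n using Nat.strong_induction_on with
  | _ n ih =>
    intro u w hn hodd
    match w, hn, hodd with
    | .nil, hn, hodd => simp at hodd
    | .cons (v := v) h p, hn, hodd =>
      by_cases hp : p.IsPath
      · refine ⟨u, .cons h p, ?_, hodd, hn.le⟩
        rw [Walk.cons_isCycle_iff]
        refine ⟨hp, fun hmem => ?_⟩
        have h1 : p.length = 1 := by
          have := hp.length_eq_one_of_mem_edges (by rwa [Sym2.eq_swap] at hmem)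
          exact this
        rw [Walk.length_cons, h1] at hodd
        exact absurd hodd (by decide)
      · rw [Walk.isPath_iff_isSubwalk_imp_nil] at hp
        push Not at hp
        obtain ⟨x, c, ⟨a, b, hab⟩, hnil⟩ := hp
        have hclen : 0 < c.length := by
          rw [← Walk.not_nil_iff_lt_length]; exact hnil
        have hlen : p.length = a.length + c.length + b.length := by
          rw [hab]; simp [Walk.length_append]
        simp only [Walk.length_cons] at hn hodd
        by_cases hc : Odd c.length
        · obtain ⟨v', c', h1, h2, h3⟩ := ih c.length (by omega) c rfl hc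
          exact ⟨v', c', h1, h2, by omega⟩
        · have hodd' : Odd (Walk.cons h (a.append b)).length := by
            simp only [Walk.length_cons, Walk.length_append]
            rw [Nat.not_odd_iff_even] at hc
            rw [hlen] at hodd
            obtain ⟨r, hr⟩ := hodd
            obtain ⟨s, hs⟩ := hc
            exact ⟨r - s, by omega⟩
          obtain ⟨v', c', h1, h2, h3⟩ := ih (Walk.cons h (a.append b)).length
            (by simp only [Walk.length_cons, Walk.length_append]; omega) _ rfl hodd'
          refine ⟨v', c', h1, h2, ?_⟩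
          simp only [Walk.length_cons, Walk.length_append] at h3
          omega

/-- `y` is at distance exactly `t` from `w`. -/
def Sph (G : SimpleGraph V) (t : ℕ) (w y : V) : Prop :=
  (∃ p : G.Walk w y, p.length = t) ∧ ∀ p : G.Walk w y, t ≤ p.length

theorem Sph.isPath {t : ℕ} {w y : V} (h : Sph G t w y) (p : G.Walk w y) (hp : p.length = t) :
    p.IsPath := by
  classical
  have h1 := h.2 p.bypass
  have h2 := p.bypass_eq_self_of_length_le_length_bypass (by omega)
  rw [← h2]
  exact p.bypass_isPath

theorem Sph.not_adj {m t : ℕ} (hg : ∀ (v : V) (c : G.Walk v v), c.IsCycle → 2 * m ≤ c.length)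
    (ht : t + 1 ≤ m) {w y z : V} (hy : Sph G t w y) (hz : Sph G t w z) : ¬ G.Adj y z := by
  intro hadj
  obtain ⟨p, hp⟩ := hy.1
  obtain ⟨q, hq⟩ := hz.1
  have hl : (p.append (.cons hadj q.reverse)).length = 2 * t + 1 := by
    simp [Walk.length_append, hp, hq]; omega
  obtain ⟨v, c, h1, h2, h3⟩ := exists_odd_cycle_le (2 * t + 1) (p.append (.cons hadj q.reverse))
    hl (by rw [hl]; exact ⟨t, rfl⟩)
  have := hg v c h1
  omega

theorem Sph.adj_unique {m t : ℕ} (hg : ∀ (v : V) (c : G.Walk v v), c.IsCycle → 2 * m ≤ c.length)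
    (ht : t + 1 < m) {w y y' z : V} (hy : Sph G t w y) (hy' : Sph G t w y') (hz : Sph G (t + 1) w z)
    (h1 : G.Adj y z) (h2 : G.Adj y' z) : y = y' := by
  classical
  by_contra hne
  obtain ⟨p, hp⟩ := hy.1
  obtain ⟨q, hq⟩ := hy'.1
  have hp' := hz.isPath (p.concat h1) (by simp [hp])
  have hq' := hz.isPath (q.concat h2) (by simp [hq])
  have hpq : p.concat h1 ≠ q.concat h2 := by
    intro h
    apply hne
    have := congrArg Walk.penultimate h
    simpa using this
  obtain ⟨v, -, -, c, hc, hcl⟩ := hp'.exists_isCycle_length_le_add_of_ne hq' hpq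
  have := hg v c hc
  simp [hp, hq] at hcl
  omega

theorem Sph.adj_cases {t : ℕ} {w y z : V} (hy : Sph G t w y) (h : G.Adj y z) :
    Sph G (t + 1) w z ∨ Sph G t w z ∨ (1 ≤ t ∧ Sph G (t - 1) w z) := by
  classical
  obtain ⟨p, hp⟩ := hy.1
  have hex : ∃ n, ∃ q : G.Walk w z, q.length = n := ⟨_, p.concat h, rfl⟩
  obtain ⟨q, hq⟩ := Nat.find_spec hex
  have hmin : ∀ q' : G.Walk w z, Nat.find hex ≤ q'.length := fun q' => Nat.find_min' hex ⟨q', rfl⟩
  have h1 := hmin (p.concat h)
  have h2 := hy.2 (q.concat h.symm)
  simp only [Walk.length_concat] at h1 h2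
  have hs : Sph G (Nat.find hex) w z := ⟨⟨q, hq⟩, hmin⟩
  rcases (by omega : Nat.find hex = t + 1 ∨ Nat.find hex = t ∨ (1 ≤ t ∧ Nat.find hex = t - 1)) with
    h3 | h3 | ⟨h0, h3⟩
  · left; rwa [h3] at hs
  · right; left; rwa [h3] at hs
  · right; right; refine ⟨h0, ?_⟩; rwa [h3] at hs

open Classical in
/-- The sphere sizes in a regular graph of large girth. -/
theorem card_sphere_ge [Fintype V] [DecidableRel G.Adj] {k m : ℕ}
    (hk : ∀ v, k ≤ G.degree v)
    (hg : ∀ (v : V) (c : G.Walk v v), c.IsCycle → 2 * m ≤ c.length) (w : V) :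
    ∀ t : ℕ, t + 1 < m → k * (k - 1) ^ t ≤ #{y : V | Sph G (t + 1) w y} := by
  intro t
  induction t with
  | zero =>
    intro _
    simp only [pow_zero, mul_one, zero_add]
    refine (hk w).trans ?_
    rw [← card_neighborFinset_eq_degree]
    apply card_le_card
    intro y hy
    rw [mem_neighborFinset] at hy
    simp only [mem_filter, mem_univ, true_and]
    refine ⟨⟨.cons hy .nil, rfl⟩, fun p => ?_⟩
    by_contra hlt
    have : p.length = 0 := by omega
    exact hy.ne (Walk.eq_of_length_eq_zero this)
  | succ t ih =>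
    intro ht
    have ih' := ih (by omega)
    have key : #{y : V | Sph G (t + 1) w y} * (k - 1) ≤ #{y : V | Sph G (t + 2) w y} * 1 := by
      apply card_mul_le_card_mul (fun y z => G.Adj y z)
      · intro y hy
        simp only [mem_filter, mem_univ, true_and] at hy
        -- neighbours of `y`
        have hsub : G.neighborFinset y ⊆
            (bipartiteAbove (fun y z => G.Adj y z) {z : V | Sph G (t + 2) w z} y) ∪
              (G.neighborFinset y).filter (fun z => Sph G t w z) := by
          intro z hz
          have hz' := hz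
          rw [mem_neighborFinset] at hz'
          rcases hy.adj_cases hz' with h | h | ⟨-, h⟩
          · simp only [mem_union, bipartiteAbove, mem_filter, mem_univ, true_and]
            left; exact ⟨h, hz'⟩
          · exact absurd hz' (hy.not_adj hg (by omega) h)
          · simp only [mem_union, bipartiteAbove, mem_filter, mem_univ, true_and]
            right; exact ⟨hz, by simpa using h⟩
        have h1 := card_le_card hsub
        rw [card_neighborFinset_eq_degree] at h1
        replace h1 := (hk y).trans h1
        have h2 : #((G.neighborFinset y).filter (fun z => Sph G t w z)) ≤ 1 := by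
          rw [card_le_one]
          intro a ha b hb
          simp only [mem_filter, mem_neighborFinset] at ha hb
          exact Sph.adj_unique hg (by omega) ha.2 hb.2 hy ha.1.symm hb.1.symm
        have h3 := h1.trans (card_union_le _ _)
        omega
      · intro z hz
        simp only [mem_filter, mem_univ, true_and] at hz
        rw [card_le_one]
        intro a ha b hb
        simp only [bipartiteBelow, mem_filter, mem_univ, true_and] at ha hb
        exact Sph.adj_unique hg (by omega) ha.1 hb.1 hz ha.2 hb.2
    calc k * (k - 1) ^ (t + 1) = (k * (k - 1) ^ t) * (k - 1) := by ring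
      _ ≤ _ := Nat.mul_le_mul_right _ ih'
      _ ≤ _ := by simpa using key

/-- `y` is the end of a walk of length exactly `t` starting at `w`. -/
def Rch (G : SimpleGraph V) (t : ℕ) (w y : V) : Prop := ∃ p : G.Walk w y, p.length = t

open Classical in
theorem card_reach_ge [Fintype V] [DecidableRel G.Adj] {k m : ℕ}
    (hk : ∀ v, k ≤ G.degree v) (hk1 : 1 ≤ k)
    (hg : ∀ (v : V) (c : G.Walk v v), c.IsCycle → 2 * m ≤ c.length) (w : V) :
    ∀ t : ℕ, t < m → ∑ i ∈ range (t + 1), (k - 1) ^ i ≤ #{y : V | Rch G t w y} := by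
  intro t
  induction t using Nat.twoStepInduction with
  | zero =>
    intro _
    simp only [zero_add, range_one, sum_singleton, pow_zero]
    rw [Nat.one_le_iff_ne_zero, card_ne_zero]
    exact ⟨w, by simp only [mem_filter, mem_univ, true_and]; exact ⟨.nil, rfl⟩⟩
  | one =>
    intro hm
    have h := card_sphere_ge hk hg w 0 (by omega)
    have h' : ∑ i ∈ range (1 + 1), (k - 1) ^ i = k := by
      simp [sum_range_succ]; omega
    rw [h']
    simp only [pow_zero, mul_one, zero_add] at h
    refine h.trans (card_le_card ?_)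
    intro y hy
    simp only [mem_filter, mem_univ, true_and] at hy ⊢
    exact hy.1
  | more t ih _ =>
    intro hm
    have h1 := ih (by omega)
    have h2 := card_sphere_ge hk hg w (t + 1) (by omega)
    have hdisj : Disjoint (univ.filter fun y : V => Rch G t w y)
        (univ.filter fun y : V => Sph G (t + 2) w y) := by
      rw [Finset.disjoint_left]
      intro y hy hy'
      simp only [mem_filter, mem_univ, true_and] at hy hy'
      obtain ⟨p, hp⟩ := hy
      have := hy'.2 p
      omega
    have hsub : (univ.filter fun y : V => Rch G t w y) ∪ (univ.filter fun y : V => Sph G (t + 2) w y) ⊆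
        univ.filter fun y : V => Rch G (t + 2) w y := by
      intro y hy
      simp only [mem_union, mem_filter, mem_univ, true_and] at hy ⊢
      rcases hy with ⟨p, hp⟩ | h
      · -- extend the walk by going back and forth
        have hdeg : 0 < G.degree y := by have := hk y; omega
        obtain ⟨z, hz⟩ := (G.degree_pos_iff_exists_adj y).1 hdeg
        exact ⟨(p.concat hz).concat hz.symm, by simp [hp]⟩
      · exact h.1
    have h3 := card_le_card hsub
    rw [card_union_of_disjoint hdisj] at h3
    have h4 : ∑ i ∈ range (t + 2 + 1), (k - 1) ^ i =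
        ∑ i ∈ range (t + 1), (k - 1) ^ i + k * (k - 1) ^ (t + 1) := by
      obtain ⟨k, rfl⟩ : ∃ k', k = k' + 1 := ⟨k - 1, by omega⟩
      simp only [sum_range_succ, Nat.add_sub_cancel]
      ring
    rw [h4]
    exact (Nat.add_le_add h1 h2).trans h3

/-- Counting lemma on a cyclic arrangement of odd length `L`. -/
theorem count_le_of_periodic {L m : ℕ} (P : ℕ → Prop) [DecidablePred P] (hLodd : Odd L)
    (hLm : 2 * m ≤ L) (hm : 1 ≤ m) (hper : Function.Periodic P L)
    (hP : ∀ i d, P i → P (i + d) → Odd d → L ≤ d + 2 * (m - 1)) :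
    #{i ∈ range L | P i} ≤ m := by
  by_cases hne : ∃ i, P i
  swap
  · push Not at hne
    simp [hne]
  obtain ⟨i₀, hi₀⟩ := hne
  have h1 : #{i ∈ range L | P i} = #{x ∈ Ico i₀ (i₀ + L) | P x} := by
    rw [Nat.filter_Ico_card_eq_of_periodic i₀ L P hper, Nat.count_eq_card_filter_range]
  rw [h1]
  obtain ⟨l, hl⟩ := hLodd
  have hmem : ∀ x ∈ ({x ∈ Ico i₀ (i₀ + L) | P x} : Finset ℕ), ∃ d, x = i₀ + d ∧ d < L ∧
      P (i₀ + d) ∧ ((d % 2 = 0 ∧ d ≤ 2 * (m - 1)) ∨ (d % 2 = 1 ∧ L ≤ d + 2 * (m - 1))) := by
    intro x hx
    simp only [mem_filter, mem_Ico] at hx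
    refine ⟨x - i₀, by omega, by omega, ?_, ?_⟩
    · rw [Nat.add_sub_cancel' hx.1.1]; exact hx.2
    · rcases Nat.mod_two_eq_zero_or_one (x - i₀) with h | h
      · left
        refine ⟨h, ?_⟩
        by_cases h0 : x - i₀ = 0
        · omega
        · have := hP x (i₀ + L - x) hx.2 (by
            rw [Nat.add_sub_cancel' (by omega), hper]; exact hi₀) (by
            rw [Nat.odd_iff]; omega)
          omega
      · right
        refine ⟨h, ?_⟩
        exact hP i₀ (x - i₀) hi₀ (by rw [Nat.add_sub_cancel' hx.1.1]; exact hx.2)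
          (by rw [Nat.odd_iff]; exact h)
  rw [← card_range m]
  apply card_le_card_of_injOn
    (fun x => if (x - i₀) % 2 = 0 then (x - i₀) / 2 else m - (L - (x - i₀)) / 2)
  · intro x hx
    obtain ⟨d, rfl, hd, -, h⟩ := hmem x hx
    simp only [Nat.add_sub_cancel_left, coe_range, Set.mem_Iio]
    split_ifs with h0
    · omega
    · omega
  · intro x hx y hy hxy
    obtain ⟨d, rfl, hd, hPd, h⟩ := hmem x hx
    obtain ⟨e, rfl, he, hPe, h'⟩ := hmem y hy
    simp only [Nat.add_sub_cancel_left] at hxy
    have hde : ∀ d e : ℕ, d < L → e < L → P (i₀ + d) → P (i₀ + e) → d % 2 = 0 → e % 2 = 1 →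
        d ≤ 2 * (m - 1) → L ≤ e + 2 * (m - 1) → d / 2 = m - (L - e) / 2 → False := by
      intro d e hd he hPd hPe hd2 he2 hdm hem heq
      have h3 : e = d + (L - 2 * m) := by omega
      have := hP (i₀ + d) (L - 2 * m) hPd (by rw [add_assoc, ← h3]; exact hPe)
        (by rw [Nat.odd_iff]; omega)
      omega
    rcases h with ⟨h0, h1⟩ | ⟨h0, h1⟩ <;> rcases h' with ⟨h0', h1'⟩ | ⟨h0', h1'⟩
    · rw [if_pos h0, if_pos h0'] at hxy
      omega
    · rw [if_pos h0, if_neg (by omega)] at hxy
      exact (hde d e hd he hPd hPe h0 h0' h1 h1' hxy).elim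
    · rw [if_neg (by omega), if_pos h0'] at hxy
      exact (hde e d he hd hPe hPd h0' h0 h1' h1 hxy.symm).elim
    · rw [if_neg (by omega), if_neg (by omega)] at hxy
      omega

/-- **Main inequality.** If `G` has minimum degree at least `k`, has no cycles shorter than
`2 * m`, is not bipartite, and all its odd cycles have length at least `L`, then
`L * ∑ i ∈ range m, (k - 1) ^ i ≤ m * |V|`. -/
theorem oddGirth_mul_le [Fintype V] [DecidableRel G.Adj] {k m L : ℕ} (hm : 1 ≤ m)
    (hk : ∀ v, k ≤ G.degree v)
    (hg : ∀ (v : V) (c : G.Walk v v), c.IsCycle → 2 * m ≤ c.length)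
    (hL : ∀ (v : V) (c : G.Walk v v), c.IsCycle → Odd c.length → L ≤ c.length)
    (hnb : ¬ G.Colorable 2) :
    L * ∑ i ∈ range m, (k - 1) ^ i ≤ m * Fintype.card V := by
  classical
  rw [two_colorable_iff_forall_loop_even] at hnb
  push Not at hnb
  obtain ⟨u₀, w₀, hw₀⟩ := hnb
  rw [Nat.not_even_iff_odd] at hw₀
  -- the shortest odd closed walk
  have hex : ∃ n, ∃ (u : V) (w : G.Walk u u), w.length = n ∧ Odd n := ⟨_, u₀, w₀, rfl, hw₀⟩
  obtain ⟨u, C, hC, hCodd⟩ := Nat.find_spec hex
  have hmin : ∀ (v : V) (w : G.Walk v v), Odd w.length → Nat.find hex ≤ w.length :=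
    fun v w hw => Nat.find_min' hex ⟨v, w, rfl, hw⟩
  set N := Nat.find hex with hN
  -- there is a cycle of length `N`
  obtain ⟨v, c, hc1, hc2, hc3⟩ := exists_odd_cycle_le N C hC (by rw [hC]; exact hCodd)
  have hLN : L ≤ N := (hL v c hc1 hc2).trans hc3
  have hNm : 2 * m ≤ N := (hg v c hc1).trans hc3
  have hNpos : 0 < N := by omega
  -- the case `k = 0`
  rcases Nat.eq_zero_or_pos k with hk0 | hk1
  · have h1 : c.length ≤ Fintype.card V := by
      have h2 := hc1.support_nodup
      have h3 := h2.length_le_card
      rw [List.length_tail, Walk.length_support, Nat.add_sub_cancel] at h3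
      exact h3
    have h4 : ∑ i ∈ range m, (k - 1) ^ i = 1 := by
      rw [hk0]
      obtain ⟨m', rfl⟩ : ∃ m', m = m' + 1 := ⟨m - 1, by omega⟩
      rw [sum_range_succ']
      simp
    rw [h4, mul_one]
    calc L ≤ c.length := hL v c hc1 hc2
      _ ≤ Fintype.card V := h1
      _ ≤ m * Fintype.card V := Nat.le_mul_of_pos_left _ hm
  -- the cyclic sequence of vertices
  let f : ℕ → V := fun i => C.getVert (i % N)
  have hfadj : ∀ i, G.Adj (f i) (f (i + 1)) := by
    intro i
    have hlt : i % N < N := Nat.mod_lt _ hNpos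
    have hadj := C.adj_getVert_succ (i := i % N) (by rw [hC]; exact hlt)
    by_cases h : i % N + 1 = N
    · have h1 : (i + 1) % N = 0 := by
        rw [← Nat.mod_add_mod, h, Nat.mod_self]
      simp only [f]
      rw [h1, Walk.getVert_zero]
      rw [h, ← hC, Walk.getVert_length] at hadj
      rwa [hC] at hadj
    · have h1 : (i + 1) % N = i % N + 1 := by
        rw [← Nat.mod_add_mod, Nat.mod_eq_of_lt (by omega)]
      simp only [f]
      rw [h1]
      exact hadj
  have hfwalk : ∀ i d, ∃ p : G.Walk (f i) (f (i + d)), p.length = d := by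
    intro i d
    induction d with
    | zero => exact ⟨.nil, rfl⟩
    | succ d ih =>
      obtain ⟨p, hp⟩ := ih
      exact ⟨p.concat (hfadj (i + d)), by simp [hp]⟩
  have hfper : Function.Periodic f N := by
    intro i
    simp [f]
  -- double counting
  have hcount : ∀ y : V, #{i ∈ range N | Rch G (m - 1) (f i) y} ≤ m := by
    intro y
    apply count_le_of_periodic (fun i => Rch G (m - 1) (f i) y) hCodd hNm hm
    · intro i
      simp only [hfper i]
    · intro i d ⟨p, hp⟩ ⟨q, hq⟩ hd
      obtain ⟨r, hr⟩ := hfwalk i d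
      have := hmin _ (r.append (q.append p.reverse)) (by
        simp only [Walk.length_append, Walk.length_reverse, hr, hq, hp]
        obtain ⟨s, hs⟩ := hd
        exact ⟨s + (m - 1), by omega⟩)
      simp only [Walk.length_append, Walk.length_reverse, hr, hq, hp] at this
      omega
  have hreach : ∀ i, ∑ j ∈ range m, (k - 1) ^ j ≤ #{y : V | Rch G (m - 1) (f i) y} := by
    intro i
    have := card_reach_ge hk hk1 hg (f i) (m - 1) (by omega)
    rwa [Nat.sub_add_cancel hm] at this
  have hdc : #(range N) * ∑ j ∈ range m, (k - 1) ^ j ≤ #(univ : Finset V) * m := by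
    apply card_mul_le_card_mul (fun i y => Rch G (m - 1) (f i) y)
    · intro i _
      exact hreach i
    · intro y _
      exact hcount y
  rw [card_range, card_univ] at hdc
  calc L * ∑ i ∈ range m, (k - 1) ^ i ≤ N * ∑ i ∈ range m, (k - 1) ^ i :=
        Nat.mul_le_mul_right _ hLN
    _ ≤ Fintype.card V * m := hdc
    _ = m * Fintype.card V := by ring

end Pool.Agent.Lib.Helper15
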