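import Mathlib

/-!
# Algebra behind the graphs of girth eight and twelve
-/

namespace Pool.Agent.Lib.Helper15

variable {F : Type*} [Field F]

/-- No closed alternating sequence with two or three points in the graph
`b + y = a * x`, `c + z = a * y`. -/
theorem no_short_eight {m : ℕ} (hm2 : 2 ≤ m) (hm3 : m ≤ 3) (a b c x y z : ℕ → F)
    (h1 : ∀ j, b j + y j = a j * x j) (h1' : ∀ j, b (j + 1) + y j = a (j + 1) * x j)
    (h2 : ∀ j, c j + z j = a j * y j) (h2' : ∀ j, c (j + 1) + z j = a (j + 1) * y j)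
    (pa : ∀ j, a (j + m) = a j) (px : ∀ j, x (j + m) = x j) (py : ∀ j, y (j + m) = y j)
    (pz : ∀ j, z (j + m) = z j)
    (ha : ∀ j, a j ≠ a (j + 1)) (hx : ∀ j, x j ≠ x (j + 1)) : False := by
  have e1 : ∀ j, y (j + 1) - y j = a (j + 1) * (x (j + 1) - x j) := fun j => by
    linear_combination h1 (j + 1) - h1' j
  have e2 : ∀ j, z (j + 1) - z j = a (j + 1) ^ 2 * (x (j + 1) - x j) := fun j => by
    linear_combination h2 (j + 1) - h2' j + a (j + 1) * e1 j
  have hu : ∀ j, x (j + 1) - x j ≠ 0 := fun j => sub_ne_zero.2 (hx j).symm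
  interval_cases m
  · -- two points
    have s0 : (x 1 - x 0) + (x 2 - x 1) = 0 := by linear_combination px 0
    have s1 : a 1 * (x 1 - x 0) + a 2 * (x 2 - x 1) = 0 := by
      linear_combination py 0 - e1 0 - e1 1
    have h : (x 1 - x 0) * (a 1 - a 2) = 0 := by linear_combination s1 - a 2 * s0
    rcases mul_eq_zero.1 h with h | h
    · exact hu 0 h
    · exact ha 1 (sub_eq_zero.1 h)
  · have s0 : (x 1 - x 0) + (x 2 - x 1) + (x 3 - x 2) = 0 := by linear_combination px 0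
    have s1 : a 1 * (x 1 - x 0) + a 2 * (x 2 - x 1) + a 3 * (x 3 - x 2) = 0 := by
      linear_combination py 0 - e1 0 - e1 1 - e1 2
    have s2 : a 1 ^ 2 * (x 1 - x 0) + a 2 ^ 2 * (x 2 - x 1) + a 3 ^ 2 * (x 3 - x 2) = 0 := by
      linear_combination pz 0 - e2 0 - e2 1 - e2 2
    have h : (x 1 - x 0) * ((a 1 - a 2) * (a 1 - a 3)) = 0 := by
      linear_combination s2 - (a 2 + a 3) * s1 + a 2 * a 3 * s0
    rcases mul_eq_zero.1 h with h | h
    · exact hu 0 h
    · rcases mul_eq_zero.1 h with h | h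
      · exact ha 1 (sub_eq_zero.1 h)
      · have h3 : a 3 ≠ a 1 := by
          have := ha 3
          rwa [show a (3 + 1) = a 1 from pa 1] at this
        exact h3 (sub_eq_zero.1 h).symm

/-- Nonconsecutive values among five are different. -/
theorem five_aux {a0 a1 a2 a3 a4 u0 u1 u2 u3 u4 : F}
    (h34 : a3 ≠ a4) (h40 : a4 ≠ a0) (h23 : a2 ≠ a3)
    (hu3 : u3 ≠ 0) (hu4 : u4 ≠ 0)
    (s0 : u0 + u1 + u2 + u3 + u4 = 0)
    (s1 : a0 * u0 + a1 * u1 + a2 * u2 + a3 * u3 + a4 * u4 = 0)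
    (s2 : a0 ^ 2 * u0 + a1 ^ 2 * u1 + a2 ^ 2 * u2 + a3 ^ 2 * u3 + a4 ^ 2 * u4 = 0)
    (s3 : a0 ^ 3 * u0 + a1 ^ 3 * u1 + a2 ^ 3 * u2 + a3 ^ 3 * u3 + a4 ^ 3 * u4 = 0) :
    a0 ≠ a2 := by
  intro h
  subst h
  have k3 : u3 * ((a3 - a0) * (a3 - a1) * (a3 - a4)) = 0 := by
    linear_combination s3 - (a0 + a1 + a4) * s2 + (a0 * a1 + a0 * a4 + a1 * a4) * s1
      - a0 * a1 * a4 * s0
  have k4 : u4 * ((a4 - a0) * (a4 - a1) * (a4 - a3)) = 0 := by
    linear_combination s3 - (a0 + a1 + a3) * s2 + (a0 * a1 + a0 * a3 + a1 * a3) * s1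
      - a0 * a1 * a3 * s0
  have h31 : a3 = a1 := by
    rcases mul_eq_zero.1 k3 with h | h
    · exact absurd h hu3
    · rcases mul_eq_zero.1 h with h | h
      · rcases mul_eq_zero.1 h with h | h
        · exact absurd (sub_eq_zero.1 h).symm h23
        · exact sub_eq_zero.1 h
      · exact absurd (sub_eq_zero.1 h) h34
  have h41 : a4 = a1 := by
    rcases mul_eq_zero.1 k4 with h | h
    · exact absurd h hu4
    · rcases mul_eq_zero.1 h with h | h
      · rcases mul_eq_zero.1 h with h | h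
        · exact absurd (sub_eq_zero.1 h) h40
        · exact sub_eq_zero.1 h
      · exact absurd (sub_eq_zero.1 h).symm h34
  exact h34 (by rw [h31, h41])

theorem five_id {a0 a1 a2 a3 a4 t : F}
    (h01 : a0 - a1 ≠ 0) (h02 : a0 - a2 ≠ 0) (h03 : a0 - a3 ≠ 0) (h04 : a0 - a4 ≠ 0)
    (h12 : a1 - a2 ≠ 0) (h13 : a1 - a3 ≠ 0) (h14 : a1 - a4 ≠ 0) (h23 : a2 - a3 ≠ 0)
    (h24 : a2 - a4 ≠ 0) (h34 : a3 - a4 ≠ 0) (u0 u1 u2 u3 u4 : F)
    (e0 : u0 * ((a0 - a1) * (a0 - a2) * (a0 - a3) * (a0 - a4)) = t)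
    (e1 : u1 * ((a1 - a0) * (a1 - a2) * (a1 - a3) * (a1 - a4)) = t)
    (e2 : u2 * ((a2 - a0) * (a2 - a1) * (a2 - a3) * (a2 - a4)) = t)
    (e3 : u3 * ((a3 - a0) * (a3 - a1) * (a3 - a2) * (a3 - a4)) = t)
    (e4 : u4 * ((a4 - a0) * (a4 - a1) * (a4 - a2) * (a4 - a3)) = t) :
    (u0 * u1 * (a1 - a0) ^ 3 + u0 * u2 * (a2 - a0) ^ 3 + u1 * u2 * (a2 - a1) ^ 3
      - u3 * u4 * (a3 - a4) ^ 3) * ((a0 - a2) * (a1 - a3) * (a2 - a4) * (a3 - a0) * (a4 - a1))
      = -2 * t ^ 2 := by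
  have h10 : a1 - a0 ≠ 0 := by rw [← neg_sub]; exact neg_ne_zero.2 h01
  have h20 : a2 - a0 ≠ 0 := by rw [← neg_sub]; exact neg_ne_zero.2 h02
  have h30 : a3 - a0 ≠ 0 := by rw [← neg_sub]; exact neg_ne_zero.2 h03
  have h40 : a4 - a0 ≠ 0 := by rw [← neg_sub]; exact neg_ne_zero.2 h04
  have h21 : a2 - a1 ≠ 0 := by rw [← neg_sub]; exact neg_ne_zero.2 h12
  have h31 : a3 - a1 ≠ 0 := by rw [← neg_sub]; exact neg_ne_zero.2 h13
  have h41 : a4 - a1 ≠ 0 := by rw [← neg_sub]; exact neg_ne_zero.2 h14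
  have h32 : a3 - a2 ≠ 0 := by rw [← neg_sub]; exact neg_ne_zero.2 h23
  have h42 : a4 - a2 ≠ 0 := by rw [← neg_sub]; exact neg_ne_zero.2 h24
  have h43 : a4 - a3 ≠ 0 := by rw [← neg_sub]; exact neg_ne_zero.2 h34
  have f0 : u0 = t / ((a0 - a1) * (a0 - a2) * (a0 - a3) * (a0 - a4)) := by
    rw [eq_div_iff]; exact e0
    exact mul_ne_zero (mul_ne_zero (mul_ne_zero h01 h02) h03) h04
  have f1 : u1 = -t / ((a0 - a1) * (a1 - a2) * (a1 - a3) * (a1 - a4)) := by
    rw [eq_div_iff]; linear_combination -e1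
    exact mul_ne_zero (mul_ne_zero (mul_ne_zero h01 h12) h13) h14
  have f2 : u2 = t / ((a0 - a2) * (a1 - a2) * (a2 - a3) * (a2 - a4)) := by
    rw [eq_div_iff]; linear_combination e2
    exact mul_ne_zero (mul_ne_zero (mul_ne_zero h02 h12) h23) h24
  have f3 : u3 = -t / ((a0 - a3) * (a1 - a3) * (a2 - a3) * (a3 - a4)) := by
    rw [eq_div_iff]; linear_combination -e3
    exact mul_ne_zero (mul_ne_zero (mul_ne_zero h03 h13) h23) h34
  have f4 : u4 = t / ((a0 - a4) * (a1 - a4) * (a2 - a4) * (a3 - a4)) := by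
    rw [eq_div_iff]; linear_combination e4
    exact mul_ne_zero (mul_ne_zero (mul_ne_zero h04 h14) h24) h34
  rw [f0, f1, f2, f3, f4]
  field_simp
  ring

/-- No closed alternating sequence with at most five points in the graph
`b + y = a * x`, `c + z = a * y`, `d + w = a * z`, `e + v = b * z - 2 * c * y + d * x`. -/
theorem no_short_twelve (h2F : (2 : F) ≠ 0) {m : ℕ} (hm2 : 2 ≤ m) (hm5 : m ≤ 5)
    (a b c d e x y z w v : ℕ → F)
    (h1 : ∀ j, b j + y j = a j * x j) (h1' : ∀ j, b (j + 1) + y j = a (j + 1) * x j)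
    (h2 : ∀ j, c j + z j = a j * y j) (h2' : ∀ j, c (j + 1) + z j = a (j + 1) * y j)
    (h3 : ∀ j, d j + w j = a j * z j) (h3' : ∀ j, d (j + 1) + w j = a (j + 1) * z j)
    (h4 : ∀ j, e j + v j = b j * z j - 2 * c j * y j + d j * x j)
    (h4' : ∀ j, e (j + 1) + v j = b (j + 1) * z j - 2 * c (j + 1) * y j + d (j + 1) * x j)
    (pa : ∀ j, a (j + m) = a j) (px : ∀ j, x (j + m) = x j) (py : ∀ j, y (j + m) = y j)
    (pz : ∀ j, z (j + m) = z j) (pw : ∀ j, w (j + m) = w j) (pv : ∀ j, v (j + m) = v j)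
    (ha : ∀ j, a j ≠ a (j + 1)) (hx : ∀ j, x j ≠ x (j + 1)) : False := by
  by_cases hm3 : m ≤ 3
  · exact no_short_eight hm2 hm3 a b c x y z h1 h1' h2 h2' pa px py pz ha hx
  have e1 : ∀ j, y (j + 1) - y j = a (j + 1) * (x (j + 1) - x j) := fun j => by
    linear_combination h1 (j + 1) - h1' j
  have e2 : ∀ j, z (j + 1) - z j = a (j + 1) ^ 2 * (x (j + 1) - x j) := fun j => by
    linear_combination h2 (j + 1) - h2' j + a (j + 1) * e1 j
  have e3 : ∀ j, w (j + 1) - w j = a (j + 1) ^ 3 * (x (j + 1) - x j) := fun j => by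
    linear_combination h3 (j + 1) - h3' j + a (j + 1) * e2 j
  have e4 : ∀ j, v (j + 1) - v j = (x (j + 1) - x j) *
      (b (j + 1) * a (j + 1) ^ 2 - 2 * c (j + 1) * a (j + 1) + d (j + 1)) := fun j => by
    linear_combination h4 (j + 1) - h4' j + b (j + 1) * e2 j - 2 * c (j + 1) * e1 j
  have fb : ∀ j, b (j + 1) = b j + (a (j + 1) - a j) * x j := fun j => by
    linear_combination h1' j - h1 j
  have fc : ∀ j, c (j + 1) = c j + (a (j + 1) - a j) * y j := fun j => by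
    linear_combination h2' j - h2 j
  have fd : ∀ j, d (j + 1) = d j + (a (j + 1) - a j) * z j := fun j => by
    linear_combination h3' j - h3 j
  have hu : ∀ j, x (j + 1) - x j ≠ 0 := fun j => sub_ne_zero.2 (hx j).symm
  have fy : ∀ j, y (j + 1) = y j + a (j + 1) * (x (j + 1) - x j) := fun j => by
    linear_combination e1 j
  have fz : ∀ j, z (j + 1) = z j + a (j + 1) ^ 2 * (x (j + 1) - x j) := fun j => by
    linear_combination e2 j
  interval_cases m
  · -- four points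
    have x4 : x 4 = x 0 := px 0
    have s0 : (x 1 - x 0) + (x 2 - x 1) + (x 3 - x 2) + (x 4 - x 3) = 0 := by
      linear_combination x4
    have s1 : a 1 * (x 1 - x 0) + a 2 * (x 2 - x 1) + a 3 * (x 3 - x 2) + a 4 * (x 4 - x 3)
        = 0 := by
      linear_combination py 0 - e1 0 - e1 1 - e1 2 - e1 3
    have s2 : a 1 ^ 2 * (x 1 - x 0) + a 2 ^ 2 * (x 2 - x 1) + a 3 ^ 2 * (x 3 - x 2)
        + a 4 ^ 2 * (x 4 - x 3) = 0 := by
      linear_combination pz 0 - e2 0 - e2 1 - e2 2 - e2 3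
    have s3 : a 1 ^ 3 * (x 1 - x 0) + a 2 ^ 3 * (x 2 - x 1) + a 3 ^ 3 * (x 3 - x 2)
        + a 4 ^ 3 * (x 4 - x 3) = 0 := by
      linear_combination pw 0 - e3 0 - e3 1 - e3 2 - e3 3
    have hE : (x 1 - x 0) * (b 1 * a 1 ^ 2 - 2 * c 1 * a 1 + d 1)
        + (x 2 - x 1) * (b 2 * a 2 ^ 2 - 2 * c 2 * a 2 + d 2)
        + (x 3 - x 2) * (b 3 * a 3 ^ 2 - 2 * c 3 * a 3 + d 3)
        + (x 4 - x 3) * (b 4 * a 4 ^ 2 - 2 * c 4 * a 4 + d 4) = 0 := by
      linear_combination pv 0 - e4 0 - e4 1 - e4 2 - e4 3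
    have h41 : a 4 ≠ a 1 := by
      have := ha 4
      rwa [show a (4 + 1) = a 1 from pa 1] at this
    have h13 : a 1 = a 3 := by
      have h : (x 1 - x 0) * ((a 1 - a 2) * (a 1 - a 3) * (a 1 - a 4)) = 0 := by
        linear_combination s3 - (a 2 + a 3 + a 4) * s2 + (a 2 * a 3 + a 2 * a 4 + a 3 * a 4) * s1
          - a 2 * a 3 * a 4 * s0
      rcases mul_eq_zero.1 h with h | h
      · exact absurd h (hu 0)
      · rcases mul_eq_zero.1 h with h | h
        · rcases mul_eq_zero.1 h with h | h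
          · exact absurd (sub_eq_zero.1 h) (ha 1)
          · exact sub_eq_zero.1 h
        · exact absurd (sub_eq_zero.1 h).symm h41
    have h24 : a 2 = a 4 := by
      have h : (x 2 - x 1) * ((a 2 - a 1) * (a 2 - a 3) * (a 2 - a 4)) = 0 := by
        linear_combination s3 - (a 1 + a 3 + a 4) * s2 + (a 1 * a 3 + a 1 * a 4 + a 3 * a 4) * s1
          - a 1 * a 3 * a 4 * s0
      rcases mul_eq_zero.1 h with h | h
      · exact absurd h (hu 1)
      · rcases mul_eq_zero.1 h with h | h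
        · rcases mul_eq_zero.1 h with h | h
          · exact absurd (sub_eq_zero.1 h).symm (ha 1)
          · exact absurd (sub_eq_zero.1 h) (ha 2)
        · exact sub_eq_zero.1 h
    have hsub : a 1 - a 2 ≠ 0 := sub_ne_zero.2 (ha 1)
    have k1 : (x 1 - x 0) + (x 3 - x 2) = 0 := by
      apply (mul_eq_zero.1 (?_ : (a 1 - a 2) * ((x 1 - x 0) + (x 3 - x 2)) = 0)).resolve_left hsub
      rw [← h13, ← h24] at s1
      linear_combination s1 - a 2 * s0
    have k2 : (x 2 - x 1) + (x 4 - x 3) = 0 := by linear_combination s0 - k1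
    have g2b := fb 1
    have g3b := fb 2
    have g4b := fb 3
    have g2c := fc 1
    have g3c := fc 2
    have g4c := fc 3
    have g2d := fd 1
    have g3d := fd 2
    have g4d := fd 3
    have g1y := fy 0
    have g2y := fy 1
    have g3y := fy 2
    have g1z := fz 0
    have g2z := fz 1
    have g3z := fz 2
    simp only [Nat.reduceAdd] at g2b g3b g4b g2c g3c g4c g2d g3d g4d g1y g2y g3y g1z g2z g3z
    rw [g4b, g3b, g2b, g4c, g3c, g2c, g4d, g3d, g2d, g3y, g2y, g1y, g3z, g2z, g1z, ← h13, ← h24]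
      at hE
    rw [← h13, ← h24] at s1 s2 s3
    have hx3 : x 3 = x 2 - (x 1 - x 0) := by linear_combination k1
    rw [x4, hx3] at hE s0 s1 s2 s3
    have hfin : 2 * ((x 1 - x 0) * (x 2 - x 1) * (a 2 - a 1) ^ 3) = 0 := by
      linear_combination hE
    rcases mul_eq_zero.1 hfin with h | h
    · exact h2F h
    · rcases mul_eq_zero.1 h with h | h
      · rcases mul_eq_zero.1 h with h | h
        · exact hu 0 h
        · exact hu 1 h
      · exact hsub (by linear_combination -(pow_eq_zero_iff (by norm_num)).1 h)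
  · -- five points
    have x5 : x 5 = x 0 := px 0
    have s0 : (x 1 - x 0) + (x 2 - x 1) + (x 3 - x 2) + (x 4 - x 3) + (x 5 - x 4) = 0 := by
      linear_combination x5
    have s1 : a 1 * (x 1 - x 0) + a 2 * (x 2 - x 1) + a 3 * (x 3 - x 2) + a 4 * (x 4 - x 3)
        + a 5 * (x 5 - x 4) = 0 := by
      linear_combination py 0 - e1 0 - e1 1 - e1 2 - e1 3 - e1 4
    have s2 : a 1 ^ 2 * (x 1 - x 0) + a 2 ^ 2 * (x 2 - x 1) + a 3 ^ 2 * (x 3 - x 2)
        + a 4 ^ 2 * (x 4 - x 3) + a 5 ^ 2 * (x 5 - x 4) = 0 := by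
      linear_combination pz 0 - e2 0 - e2 1 - e2 2 - e2 3 - e2 4
    have s3 : a 1 ^ 3 * (x 1 - x 0) + a 2 ^ 3 * (x 2 - x 1) + a 3 ^ 3 * (x 3 - x 2)
        + a 4 ^ 3 * (x 4 - x 3) + a 5 ^ 3 * (x 5 - x 4) = 0 := by
      linear_combination pw 0 - e3 0 - e3 1 - e3 2 - e3 3 - e3 4
    have hE : (x 1 - x 0) * (b 1 * a 1 ^ 2 - 2 * c 1 * a 1 + d 1)
        + (x 2 - x 1) * (b 2 * a 2 ^ 2 - 2 * c 2 * a 2 + d 2)
        + (x 3 - x 2) * (b 3 * a 3 ^ 2 - 2 * c 3 * a 3 + d 3)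
        + (x 4 - x 3) * (b 4 * a 4 ^ 2 - 2 * c 4 * a 4 + d 4)
        + (x 5 - x 4) * (b 5 * a 5 ^ 2 - 2 * c 5 * a 5 + d 5) = 0 := by
      linear_combination pv 0 - e4 0 - e4 1 - e4 2 - e4 3 - e4 4
    have n12 := ha 1
    have n23 := ha 2
    have n34 := ha 3
    have n45 := ha 4
    have n51 : a 5 ≠ a 1 := by
      have := ha 5
      rwa [show a (5 + 1) = a 1 from pa 1] at this
    simp only [Nat.reduceAdd] at n12 n23 n34 n45
    have u0 := hu 0
    have u1 := hu 1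
    have u2 := hu 2
    have u3 := hu 3
    have u4 := hu 4
    simp only [Nat.reduceAdd] at u0 u1 u2 u3 u4
    have n13 : a 1 ≠ a 3 := five_aux n45 n51 n34 u3 u4 s0 s1 s2 s3
    have n24 : a 2 ≠ a 4 := five_aux (u0 := x 2 - x 1) (u1 := x 3 - x 2) (u2 := x 4 - x 3)
      (u3 := x 5 - x 4) (u4 := x 1 - x 0) (a1 := a 3) n51 n12 n45 u4 u0
      (by linear_combination s0) (by linear_combination s1) (by linear_combination s2)
      (by linear_combination s3)
    have n35 : a 3 ≠ a 5 := five_aux (u0 := x 3 - x 2) (u1 := x 4 - x 3) (u2 := x 5 - x 4)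
      (u3 := x 1 - x 0) (u4 := x 2 - x 1) (a1 := a 4) n12 n23 n51 u0 u1
      (by linear_combination s0) (by linear_combination s1) (by linear_combination s2)
      (by linear_combination s3)
    have n41 : a 4 ≠ a 1 := five_aux (u0 := x 4 - x 3) (u1 := x 5 - x 4) (u2 := x 1 - x 0)
      (u3 := x 2 - x 1) (u4 := x 3 - x 2) (a1 := a 5) n23 n34 n12 u1 u2
      (by linear_combination s0) (by linear_combination s1) (by linear_combination s2)
      (by linear_combination s3)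
    have n52 : a 5 ≠ a 2 := five_aux (u0 := x 5 - x 4) (u1 := x 1 - x 0) (u2 := x 2 - x 1)
      (u3 := x 3 - x 2) (u4 := x 4 - x 3) (a1 := a 1) n34 n45 n23 u2 u3
      (by linear_combination s0) (by linear_combination s1) (by linear_combination s2)
      (by linear_combination s3)
    have g2b := fb 1
    have g3b := fb 2
    have g4b := fb 3
    have g5b := fb 4
    have g2c := fc 1
    have g3c := fc 2
    have g4c := fc 3
    have g5c := fc 4
    have g2d := fd 1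
    have g3d := fd 2
    have g4d := fd 3
    have g5d := fd 4
    have g1y := fy 0
    have g2y := fy 1
    have g3y := fy 2
    have g4y := fy 3
    have g1z := fz 0
    have g2z := fz 1
    have g3z := fz 2
    have g4z := fz 3
    simp only [Nat.reduceAdd] at g2b g3b g4b g5b g2c g3c g4c g5c g2d g3d g4d g5d
    simp only [Nat.reduceAdd] at g1y g2y g3y g4y g1z g2z g3z g4z
    rw [g5b, g4b, g3b, g2b, g5c, g4c, g3c, g2c, g5d, g4d, g3d, g2d, g4y, g3y, g2y, g1y, g4z, g3z,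
      g2z, g1z] at hE
    have hS : (x 1 - x 0) * (x 2 - x 1) * (a 2 - a 1) ^ 3
        + (x 1 - x 0) * (x 3 - x 2) * (a 3 - a 1) ^ 3
        + (x 2 - x 1) * (x 3 - x 2) * (a 3 - a 2) ^ 3
        - (x 4 - x 3) * (x 5 - x 4) * (a 4 - a 5) ^ 3 = 0 := by
      linear_combination hE - (b 1 * s2 - 2 * c 1 * s1 + d 1 * s0)
        - (x 0 * (s3 - a 1 * s2) - 2 * y 0 * (s2 - a 1 * s1) + z 0 * (s1 - a 1 * s0))
        - (x 4 - x 3) * (a 4 ^ 3 * s0 - 3 * a 4 ^ 2 * s1 + 3 * a 4 * s2 - s3)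
        - (x 5 - x 4) * (a 5 ^ 3 * s0 - 3 * a 5 ^ 2 * s1 + 3 * a 5 * s2 - s3)
    set t := (x 1 - x 0) * ((a 1 - a 2) * (a 1 - a 3) * (a 1 - a 4) * (a 1 - a 5)) with ht
    have ht0 : t ≠ 0 := by
      rw [ht]
      exact mul_ne_zero u0 (mul_ne_zero (mul_ne_zero (mul_ne_zero (sub_ne_zero.2 n12)
        (sub_ne_zero.2 n13)) (sub_ne_zero.2 n41.symm)) (sub_ne_zero.2 n51.symm))
    have key := five_id (t := t) (sub_ne_zero.2 n12) (sub_ne_zero.2 n13) (sub_ne_zero.2 n41.symm)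
      (sub_ne_zero.2 n51.symm) (sub_ne_zero.2 n23) (sub_ne_zero.2 n24) (sub_ne_zero.2 n52.symm)
      (sub_ne_zero.2 n34) (sub_ne_zero.2 n35) (sub_ne_zero.2 n45)
      (x 1 - x 0) (x 2 - x 1) (x 3 - x 2) (x 4 - x 3) (x 5 - x 4) ht.symm
      (by
        rw [ht]
        linear_combination (-(a 1 - a 2)) * (s3 - (a 3 + a 4 + a 5) * s2
          + (a 3 * a 4 + a 3 * a 5 + a 4 * a 5) * s1 - a 3 * a 4 * a 5 * s0))
      (by
        rw [ht]
        linear_combination (-(a 1 - a 3)) * (s3 - (a 2 + a 4 + a 5) * s2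
          + (a 2 * a 4 + a 2 * a 5 + a 4 * a 5) * s1 - a 2 * a 4 * a 5 * s0))
      (by
        rw [ht]
        linear_combination (-(a 1 - a 4)) * (s3 - (a 2 + a 3 + a 5) * s2
          + (a 2 * a 3 + a 2 * a 5 + a 3 * a 5) * s1 - a 2 * a 3 * a 5 * s0))
      (by
        rw [ht]
        linear_combination (-(a 1 - a 5)) * (s3 - (a 2 + a 3 + a 4) * s2
          + (a 2 * a 3 + a 2 * a 4 + a 3 * a 4) * s1 - a 2 * a 3 * a 4 * s0))
    rw [hS, zero_mul] at key
    have h0 : 2 * t ^ 2 = 0 := by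
      rw [neg_mul] at key
      exact neg_eq_zero.1 key.symm
    rcases mul_eq_zero.1 h0 with h | h
    · exact h2F h
    · exact pow_ne_zero 2 ht0 h

end Pool.Agent.Lib.Helper15
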