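import Mathlib
import Pool.Agent.Lib.Helper15.IncidenceGraph

/-!
# Regular graphs of girth eight and twelve from finite fields
-/

namespace Pool.Agent.Lib.Helper15

open SimpleGraph Finset

/-- A copy of a cycle of length `2 * m` in an incidence graph gives alternating sequences of
points and lines. -/
theorem exists_alternating {P L : Type*} {I : P → L → Prop} {m : ℕ} (hm : 2 ≤ m)
    (h : cycleGraph (2 * m) ⊑ incGraph I) :
    ∃ (p : ℕ → P) (l : ℕ → L), (∀ j, I (p j) (l j)) ∧ (∀ j, I (p (j + 1)) (l j)) ∧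
      (∀ j, p (j + m) = p j) ∧ (∀ j, l (j + m) = l j) ∧ (∀ j, p j ≠ p (j + 1)) ∧
      (∀ j, l j ≠ l (j + 1)) := by
  obtain ⟨f⟩ := h
  have hne : NeZero (2 * m) := ⟨by omega⟩
  let g : ℕ → P ⊕ L := fun j => f (Fin.ofNat (2 * m) j)
  have hadj : ∀ j, (incGraph I).Adj (g j) (g (j + 1)) := by
    intro j
    apply f.toHom.map_adj
    rw [cycleGraph_adj']
    right
    rw [Fin.sub_def]
    simp only [Fin.ofNat]
    have h1 : 0 < 2 * m := by omega
    have h2 := Nat.mod_lt j h1
    have h3 : (2 * m - j % (2 * m) + (j + 1) % (2 * m)) % (2 * m)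
        = (2 * m - j % (2 * m) + (j % (2 * m) + 1)) % (2 * m) := by
      rw [Nat.add_mod, Nat.add_mod (2 * m - j % (2 * m)) (j % (2 * m) + 1)]
      congr 2
      rw [Nat.mod_mod]
      rw [Nat.add_mod, Nat.add_mod (j % (2 * m)) 1, Nat.mod_mod]
    rw [h3, show 2 * m - j % (2 * m) + (j % (2 * m) + 1) = 2 * m + 1 by omega,
      Nat.add_mod_left, Nat.mod_eq_of_lt (by omega)]
  have hper : ∀ j, g (j + 2 * m) = g j := by
    intro j
    simp only [g]
    congr 1
    apply Fin.ext
    simp [Fin.ofNat]
  have hinj : ∀ i j, g i = g j → i % (2 * m) = j % (2 * m) := by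
    intro i j hij
    have := f.injective hij
    simpa [Fin.ofNat] using congrArg Fin.val this
  obtain ⟨s, hs⟩ : ∃ s, (g s).isLeft := by
    rcases h0 : g 0 with p | l
    · exact ⟨0, by simp [h0]⟩
    · have h1 := hadj 0
      rw [h0] at h1
      rcases h2 : g (0 + 1) with p' | l'
      · exact ⟨0 + 1, by simp [h2]⟩
      · rw [h2] at h1
        exact h1.elim
  have hstep : ∀ j, (g j).isLeft → (g (j + 1)).isRight := by
    intro j hj
    have h1 := hadj j
    rcases h2 : g j with p | l
    · rcases h3 : g (j + 1) with p' | l'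
      · rw [h2, h3] at h1; exact h1.elim
      · rfl
    · rw [h2] at hj; exact absurd hj (by simp)
  have hstep' : ∀ j, (g j).isRight → (g (j + 1)).isLeft := by
    intro j hj
    have h1 := hadj j
    rcases h2 : g j with p | l
    · rw [h2] at hj; exact absurd hj (by simp)
    · rcases h3 : g (j + 1) with p' | l'
      · rfl
      · rw [h2, h3] at h1; exact h1.elim
  have hL : ∀ j, (g (s + 2 * j)).isLeft := by
    intro j
    induction j with
    | zero => simpa using hs
    | succ j ih =>
      have := hstep' _ (hstep _ ih)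
      rwa [show s + 2 * j + 1 + 1 = s + 2 * (j + 1) by ring] at this
  have hR : ∀ j, (g (s + 2 * j + 1)).isRight := fun j => hstep _ (hL j)
  have hp : ∀ j, ∃ p, g (s + 2 * j) = .inl p := fun j => by
    obtain ⟨p, hp⟩ := Sum.isLeft_iff.1 (hL j)
    exact ⟨p, hp⟩
  have hl : ∀ j, ∃ l, g (s + 2 * j + 1) = .inr l := fun j => by
    obtain ⟨l, hl⟩ := Sum.isRight_iff.1 (hR j)
    exact ⟨l, hl⟩
  choose p hp using hp
  choose l hl using hl
  refine ⟨p, l, ?_, ?_, ?_, ?_, ?_, ?_⟩
  · intro j
    have := hadj (s + 2 * j)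
    rw [hp, hl] at this
    exact this
  · intro j
    have := hadj (s + 2 * j + 1)
    rw [show s + 2 * j + 1 + 1 = s + 2 * (j + 1) by ring, hp, hl] at this
    exact this
  · intro j
    apply Sum.inl_injective (β := L)
    rw [← hp, ← hp, show s + 2 * (j + m) = s + 2 * j + 2 * m by ring, hper]
  · intro j
    apply Sum.inr_injective (α := P)
    rw [← hl, ← hl, show s + 2 * (j + m) + 1 = s + 2 * j + 1 + 2 * m by ring, hper]
  · intro j hj
    have h1 : g (s + 2 * j) = g (s + 2 * (j + 1)) := by rw [hp, hp, hj]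
    have h2 := hinj _ _ h1
    have h3 : s + 2 * j ≡ s + 2 * j + 2 [MOD 2 * m] := by
      rw [show s + 2 * j + 2 = s + 2 * (j + 1) by ring]; exact h2
    have h4 : 2 ≡ 0 [MOD 2 * m] := by
      have := Nat.ModEq.add_left_cancel' (s + 2 * j) (a := 0) (b := 2) (by simpa using h3)
      exact this.symm
    have h5 := (Nat.modEq_zero_iff_dvd.1 h4)
    have := Nat.le_of_dvd (by norm_num) h5
    omega
  · intro j hj
    have h1 : g (s + 2 * j + 1) = g (s + 2 * (j + 1) + 1) := by rw [hl, hl, hj]
    have h2 := hinj _ _ h1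
    have h3 : s + 2 * j + 1 ≡ s + 2 * j + 1 + 2 [MOD 2 * m] := by
      rw [show s + 2 * j + 1 + 2 = s + 2 * (j + 1) + 1 by ring]; exact h2
    have h4 : 2 ≡ 0 [MOD 2 * m] := by
      have := Nat.ModEq.add_left_cancel' (s + 2 * j + 1) (a := 0) (b := 2) (by simpa using h3)
      exact this.symm
    have h5 := (Nat.modEq_zero_iff_dvd.1 h4)
    have := Nat.le_of_dvd (by norm_num) h5
    omega

/-- If there are no alternating closed sequences with at most `M` points the girth is larger
than `2 * M`. -/
theorem le_egirth_incGraph {P L : Type*} {I : P → L → Prop} (M : ℕ)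
    (h : ∀ m, 2 ≤ m → m ≤ M → ∀ (p : ℕ → P) (l : ℕ → L), (∀ j, I (p j) (l j)) →
      (∀ j, I (p (j + 1)) (l j)) → (∀ j, p (j + m) = p j) → (∀ j, l (j + m) = l j) →
      (∀ j, p j ≠ p (j + 1)) → (∀ j, l j ≠ l (j + 1)) → False) :
    ((2 * (M + 1) : ℕ) : ℕ∞) ≤ (incGraph I).egirth := by
  rw [le_egirth]
  intro v c hc
  have heven : Even c.length := two_colorable_iff_forall_loop_even.1 (incGraph_colorable I) v c
  have h3 := hc.three_le_length
  obtain ⟨m, hm⟩ := heven
  by_contra hlt
  have hlt' : c.length < 2 * (M + 1) := by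
    have := not_le.1 hlt
    exact_mod_cast this
  have hm' : c.length = 2 * m := by omega
  have hcont : cycleGraph (2 * m) ⊑ incGraph I :=
    (cycleGraph_isContained_iff (by omega)).2 ⟨v, c, hc, hm'⟩
  obtain ⟨p, l, h1, h2, h3, h4, h5, h6⟩ := exists_alternating (by omega) hcont
  exact h m (by omega) (by omega) p l h1 h2 h3 h4 h5 h6

/-- An injective alternating closed sequence bounds the girth. -/
theorem egirth_incGraph_le {P L : Type*} {I : P → L → Prop} (m : ℕ) [NeZero m] (hm : 2 ≤ m)
    (p : Fin m → P) (l : Fin m → L) (hp : p.Injective) (hl : l.Injective)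
    (h1 : ∀ j, I (p j) (l j)) (h2 : ∀ j, I (p (j + 1)) (l j)) :
    (incGraph I).egirth ≤ ((2 * m : ℕ) : ℕ∞) := by
  have hlt : ∀ i : Fin (2 * m), i.val / 2 < m := fun i => by omega
  let f : Fin (2 * m) → P ⊕ L := fun i =>
    if i.val % 2 = 0 then .inl (p ⟨i.val / 2, hlt i⟩) else .inr (l ⟨i.val / 2, hlt i⟩)
  have hf : ∀ i j : Fin (2 * m), j.val = (i.val + 1) % (2 * m) → (incGraph I).Adj (f i) (f j) := by
    intro i j hij
    rcases Nat.mod_two_eq_zero_or_one i.val with hi | hi
    · have hj : j.val = i.val + 1 := by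
        rw [hij]; exact Nat.mod_eq_of_lt (by omega)
      have hj2 : j.val % 2 = 1 := by omega
      simp only [f, if_pos hi, if_neg (show ¬ j.val % 2 = 0 by omega)]
      have : (⟨j.val / 2, hlt j⟩ : Fin m) = ⟨i.val / 2, hlt i⟩ := by
        apply Fin.ext; simp only []; omega
      rw [this]
      exact h1 _
    · have hj2 : j.val % 2 = 0 := by
        rw [hij]
        rw [Nat.mod_mod_of_dvd _ (Dvd.intro m rfl)]
        omega
      simp only [f, if_pos hj2, if_neg (show ¬ i.val % 2 = 0 by omega)]
      have : (⟨j.val / 2, hlt j⟩ : Fin m) = ⟨i.val / 2, hlt i⟩ + 1 := by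
        apply Fin.ext
        rw [Fin.val_add, Fin.val_one', Nat.mod_eq_of_lt (show 1 < m by omega)]
        simp only []
        rcases Nat.lt_or_ge (i.val + 1) (2 * m) with hlt1 | hge
        · rw [hij, Nat.mod_eq_of_lt hlt1, Nat.mod_eq_of_lt (by omega)]
          omega
        · have h5 : i.val + 1 = 2 * m := by omega
          rw [hij, h5, Nat.mod_self, show i.val / 2 + 1 = m by omega, Nat.mod_self]
      rw [this]
      exact (h2 _ : I (p (⟨i.val / 2, hlt i⟩ + 1)) (l ⟨i.val / 2, hlt i⟩))
  have hfinj : Function.Injective f := by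
    intro i j hij
    simp only [f] at hij
    split_ifs at hij with hi hj hj
    · have := congrArg Fin.val (hp (Sum.inl_injective hij))
      simp only [] at this
      apply Fin.ext
      omega
    · have := congrArg Fin.val (hl (Sum.inr_injective hij))
      simp only [] at this
      apply Fin.ext
      omega
  have hcont : cycleGraph (2 * m) ⊑ incGraph I := by
    refine ⟨⟨⟨f, ?_⟩, hfinj⟩⟩
    intro i j hij
    rw [cycleGraph_adj'] at hij
    have key : ∀ i j : Fin (2 * m), (j - i).val = 1 → j.val = (i.val + 1) % (2 * m) := by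
      intro i j h
      have h6 : j = (j - i) + i := by
        have : NeZero (2 * m) := ⟨by omega⟩
        exact (sub_add_cancel j i).symm
      have h7 := congrArg Fin.val h6
      rw [Fin.val_add, h] at h7
      rw [h7, add_comm]
    rcases hij with h | h
    · exact (hf j i (key j i h)).symm
    · exact hf i j (key i j h)
  obtain ⟨v, c, hc, hlen⟩ := (cycleGraph_isContained_iff (by omega)).1 hcont
  have := egirth_le_length hc
  rw [hlen] at this
  exact this

end Pool.Agent.Lib.Helper15
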