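import Mathlib
import Pool.Agent.Lib.Helper15.PolygonGraphs
import Pool.Agent.Lib.Helper15.PolygonAlg

/-!
# Regular graphs of girth eight and twelve from finite fields: existence
-/

namespace Pool.Agent.Lib.Helper15

open SimpleGraph Finset

/-- Incidence relation of the girth eight graph. -/
def inc8 {F : Type} [Field F] (X M : Finset F) (p : {x // x ∈ X} × F × F)
    (l : {x // x ∈ M} × F × F) : Prop :=
  p.2.1 + l.2.1 = p.1.1 * l.1.1 ∧ p.2.2 + l.2.2 = p.1.1 * l.2.1

/-- Incidence relation of the girth twelve graph. -/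
def inc12 {F : Type} [Field F] (X M : Finset F) (p : {x // x ∈ X} × F × F × F × F)
    (l : {x // x ∈ M} × F × F × F × F) : Prop :=
  p.2.1 + l.2.1 = p.1.1 * l.1.1 ∧ p.2.2.1 + l.2.2.1 = p.1.1 * l.2.1 ∧
  p.2.2.2.1 + l.2.2.2.1 = p.1.1 * l.2.2.1 ∧
  p.2.2.2.2 + l.2.2.2.2 = p.2.1 * l.2.2.1 - 2 * p.2.2.1 * l.2.1 + p.2.2.2.1 * l.1.1

theorem inj8p {α F : Type} [Field F] (z0 z1 : α) (h01 : z0 ≠ z1) :
    Function.Injective (![(z0, 0, 0), (z1, 1, 0), (z0, -1, -1), (z1, 0, 0)] :
      Fin 4 → α × F × F) := by
  have h10 := h01.symm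
  have h1 : (1 : F) ≠ 0 := one_ne_zero
  intro i j hij
  fin_cases i <;> fin_cases j <;> simp_all

theorem inj8l {α F : Type} [Field F] (z0 z1 z2 : α) (h01 : z0 ≠ z1) (h02 : z0 ≠ z2)
    (h12 : z1 ≠ z2) :
    Function.Injective (![(z1, 0, 0), (z2, 1, 1), (z1, 1, 1), (z0, 0, 0)] :
      Fin 4 → α × F × F) := by
  have h10 := h01.symm
  have h20 := h02.symm
  have h21 := h12.symm
  have h1 : (1 : F) ≠ 0 := one_ne_zero
  intro i j hij
  fin_cases i <;> fin_cases j <;> simp_all

theorem inj12p {α F : Type} [Field F] (h2 : (2 : F) ≠ 0) (z0 z1 : α) (h01 : z0 ≠ z1) :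
    Function.Injective (![(z0, 0, 0, 0, 0), (z1, 2, 0, 0, 0), (z0, 2, 2, 2, 8), (z1, 3, 0, 0, -4),
          (z0, 1, 1, 1, 2), (z1, 1, 0, 0, 0)] :
      Fin 6 → α × F × F × F × F) := by
  have h10 := h01.symm
  have h1 : (1 : F) ≠ 0 := one_ne_zero
  have h21 : (2 : F) ≠ 1 := by
    intro h
    apply h1
    linear_combination h
  have h31 : (3 : F) ≠ 1 := by
    intro h
    apply h2
    linear_combination h
  have h32 : (3 : F) ≠ 2 := by
    intro h
    apply h1
    linear_combination h
  have h12 := h21.symm
  have h13 := h31.symm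
  have h23 := h32.symm
  have h02 := h2.symm
  intro i j hij
  fin_cases i <;> fin_cases j <;> simp_all

theorem inj12l {α F : Type} [Field F] (h2 : (2 : F) ≠ 0) (z0 z1 z2 : α) (h01 : z0 ≠ z1)
    (h02 : z0 ≠ z2) (h12 : z1 ≠ z2) :
    Function.Injective (![(z2, 0, 0, 0, 0), (z0, -2, -2, -2, -4), (z1, -2, -2, -2, -2),
          (z2, -1, -1, -1, 1), (z0, -1, -1, -1, -1), (z1, 0, 0, 0, 0)] :
      Fin 6 → α × F × F × F × F) := by
  have h10 := h01.symm
  have h20 := h02.symm
  have h21 := h12.symm
  have h1 : (1 : F) ≠ 0 := one_ne_zero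
  have k21 : (2 : F) ≠ 1 := by
    intro h
    apply h1
    linear_combination h
  have k12 := k21.symm
  have k02 := h2.symm
  intro i j hij
  fin_cases i <;> fin_cases j <;> simp_all

theorem exists_eight_graph (F : Type) [Field F] [Fintype F] (h2 : (2 : F) ≠ 0) (k : ℕ)
    (hk : 3 ≤ k) (hq : k ≤ Fintype.card F) :
    ∃ (H : SimpleGraph (Fin (2 * (k * (Fintype.card F) ^ 2)))) (_ : DecidableRel H.Adj),
      H.IsRegularOfDegree k ∧ H.egirth = 8 := by
  classical
  obtain ⟨X, hX, -, hXk⟩ := exists_subsuperset_card_eq (subset_univ ({0, 1, 2} : Finset F))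
    (card_le_three.trans hk) (by rwa [card_univ])
  have hX0 : (0 : F) ∈ X := hX (by simp)
  have hX1 : (1 : F) ∈ X := hX (by simp)
  have hX2 : (2 : F) ∈ X := hX (by simp)
  have h1 : (1 : F) ≠ 0 := one_ne_zero
  have h21 : (2 : F) ≠ 1 := by
    intro h
    apply h1
    linear_combination h
  have hIP : ∀ p, #{l | inc8 X X p l} = k := by
    rintro ⟨a, b, c⟩
    have : (univ.filter fun l => inc8 X X (a, b, c) l) =
        (univ : Finset {x // x ∈ X}).image
          (fun x => (x, a.1 * x.1 - b, a.1 * (a.1 * x.1 - b) - c)) := by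
      ext ⟨x, y, z⟩
      simp only [mem_filter, mem_univ, true_and, mem_image, Prod.mk.injEq, exists_eq_left]
      simp only [inc8]
      constructor
      · rintro ⟨e1, e2⟩
        have e3 : y = a.1 * x.1 - b := by linear_combination e1
        refine ⟨e3.symm, ?_⟩
        rw [← e3]
        linear_combination -e2
      · rintro ⟨e1, e2⟩
        rw [e1] at e2
        exact ⟨by linear_combination -e1, by linear_combination -e2⟩
    rw [this, card_image_of_injective _ (fun a b h => (Prod.ext_iff.1 h).1), card_univ,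
      Fintype.card_coe, hXk]
  have hIL : ∀ l, #{p | inc8 X X p l} = k := by
    rintro ⟨x, y, z⟩
    have : (univ.filter fun p => inc8 X X p (x, y, z)) =
        (univ : Finset {x // x ∈ X}).image
          (fun a => (a, a.1 * x.1 - y, a.1 * y - z)) := by
      ext ⟨a, b, c⟩
      simp only [mem_filter, mem_univ, true_and, mem_image, Prod.mk.injEq, exists_eq_left]
      simp only [inc8]
      constructor
      · rintro ⟨e1, e2⟩
        exact ⟨by linear_combination -e1, by linear_combination -e2⟩
      · rintro ⟨e1, e2⟩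
        exact ⟨by linear_combination -e1, by linear_combination -e2⟩
    rw [this, card_image_of_injective _ (fun a b h => (Prod.ext_iff.1 h).1), card_univ,
      Fintype.card_coe, hXk]
  have hreg := incGraph_regular (inc8 X X) k hIP hIL
  have hgirth : (incGraph (inc8 X X)).egirth = 8 := by
    apply le_antisymm
    · let z0 : {x // x ∈ X} := ⟨0, hX0⟩
      let z1 : {x // x ∈ X} := ⟨1, hX1⟩
      let z2 : {x // x ∈ X} := ⟨2, hX2⟩
      have h01 : z0 ≠ z1 := fun h => h1 (congrArg Subtype.val h).symm
      have h02 : z0 ≠ z2 := fun h => h2 (congrArg Subtype.val h).symm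
      have h12 : z1 ≠ z2 := fun h => h21 (congrArg Subtype.val h).symm
      have := egirth_incGraph_le (I := inc8 X X) 4 (by norm_num)
        ![(z0, 0, 0), (z1, 1, 0), (z0, -1, -1), (z1, 0, 0)]
        ![(z1, 0, 0), (z2, 1, 1), (z1, 1, 1), (z0, 0, 0)]
        (inj8p z0 z1 h01) (inj8l z0 z1 z2 h01 h02 h12)
        (by
          intro j
          fin_cases j <;> simp [inc8, z0, z1, z2]; norm_num)
        (by
          intro j
          fin_cases j <;> simp [inc8, z0, z1, z2])
      simpa using this
    · have := le_egirth_incGraph (I := inc8 X X) 3 (by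
        intro m hm2 hm3 p l e1 e2 e3 e4 e5 e6
        have pdet : ∀ (p p' : {x // x ∈ X} × F × F) (l : {x // x ∈ X} × F × F),
            inc8 X X p l → inc8 X X p' l → p.1.1 = p'.1.1 → p = p' := by
          rintro ⟨a, b, c⟩ ⟨a', b', c'⟩ ⟨x, y, z⟩ ⟨g1, g2⟩ ⟨g3, g4⟩ g5
          simp only [] at g1 g2 g3 g4 g5
          have : a = a' := Subtype.ext g5
          subst this
          have hb : b = b' := by linear_combination g1 - g3
          have hc : c = c' := by linear_combination g2 - g4
          rw [hb, hc]
        have ldet : ∀ (p : {x // x ∈ X} × F × F) (l l' : {x // x ∈ X} × F × F),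
            inc8 X X p l → inc8 X X p l' → l.1.1 = l'.1.1 → l = l' := by
          rintro ⟨a, b, c⟩ ⟨x, y, z⟩ ⟨x', y', z'⟩ ⟨g1, g2⟩ ⟨g3, g4⟩ g5
          simp only [] at g1 g2 g3 g4 g5
          have : x = x' := Subtype.ext g5
          subst this
          have hb : y = y' := by linear_combination g1 - g3
          subst hb
          have hc : z = z' := by linear_combination g2 - g4
          rw [hc]
        exact no_short_eight hm2 hm3 (fun j => (p j).1.1) (fun j => (p j).2.1)
          (fun j => (p j).2.2) (fun j => (l j).1.1) (fun j => (l j).2.1) (fun j => (l j).2.2)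
          (fun j => (e1 j).1) (fun j => (e2 j).1) (fun j => (e1 j).2) (fun j => (e2 j).2)
          (fun j => by simp only [e3]) (fun j => by simp only [e4]) (fun j => by simp only [e4])
          (fun j => by simp only [e4])
          (fun j h => e5 j (pdet _ _ _ (e1 j) (e2 j) h))
          (fun j h => e6 j (ldet _ _ _ (e2 j) (e1 (j + 1)) h)))
      simpa using this
  obtain ⟨H, hdec, h3, h4⟩ := exists_fin_graph (n := 2 * (k * (Fintype.card F) ^ 2)) _ hreg hgirth
    (by
      rw [Fintype.card_sum, Fintype.card_prod, Fintype.card_prod, Fintype.card_coe, hXk]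
      ring)
  exact ⟨H, hdec, h3, h4⟩

theorem exists_twelve_graph (F : Type) [Field F] [Fintype F] (h2 : (2 : F) ≠ 0) (k : ℕ)
    (hk : 3 ≤ k) (hq : k ≤ Fintype.card F) :
    ∃ (H : SimpleGraph (Fin (2 * (k * (Fintype.card F) ^ 4)))) (_ : DecidableRel H.Adj),
      H.IsRegularOfDegree k ∧ H.egirth = 12 := by
  classical
  obtain ⟨X, hX, -, hXk⟩ := exists_subsuperset_card_eq (subset_univ ({0, 1, 2} : Finset F))
    (card_le_three.trans hk) (by rwa [card_univ])
  have hX0 : (0 : F) ∈ X := hX (by simp)
  have hX1 : (1 : F) ∈ X := hX (by simp)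
  have hX2 : (2 : F) ∈ X := hX (by simp)
  have h1 : (1 : F) ≠ 0 := one_ne_zero
  have h21 : (2 : F) ≠ 1 := by
    intro h
    apply h1
    linear_combination h
  have h31 : (3 : F) ≠ 1 := by
    intro h
    apply h2
    linear_combination h
  have h32 : (3 : F) ≠ 2 := by
    intro h
    apply h1
    linear_combination h
  have hIP : ∀ p, #{l | inc12 X X p l} = k := by
    rintro ⟨a, b, c, d, e⟩
    have : (univ.filter fun l => inc12 X X (a, b, c, d, e) l) =
        (univ : Finset {x // x ∈ X}).image
          (fun x => (x, a.1 * x.1 - b, a.1 * (a.1 * x.1 - b) - c,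
            a.1 * (a.1 * (a.1 * x.1 - b) - c) - d,
            b * (a.1 * (a.1 * x.1 - b) - c) - 2 * c * (a.1 * x.1 - b) + d * x.1 - e)) := by
      ext ⟨x, y, z, w, v⟩
      simp only [mem_filter, mem_univ, true_and, mem_image, Prod.mk.injEq, exists_eq_left]
      simp only [inc12]
      constructor
      · rintro ⟨e1, e2, e3, e4⟩
        have f1 : y = a.1 * x.1 - b := by linear_combination e1
        have f2 : z = a.1 * (a.1 * x.1 - b) - c := by rw [← f1]; linear_combination e2
        refine ⟨f1.symm, f2.symm, ?_, ?_⟩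
        · rw [← f2]; linear_combination -e3
        · rw [← f2, ← f1]; linear_combination -e4
      · rintro ⟨e1, e2, e3, e4⟩
        rw [e2] at e3 e4
        rw [e1] at e2 e4
        exact ⟨by linear_combination -e1, by linear_combination -e2,
          by linear_combination -e3, by linear_combination -e4⟩
    rw [this, card_image_of_injective _ (fun a b h => (Prod.ext_iff.1 h).1), card_univ,
      Fintype.card_coe, hXk]
  have hIL : ∀ l, #{p | inc12 X X p l} = k := by
    rintro ⟨x, y, z, w, v⟩
    have : (univ.filter fun p => inc12 X X p (x, y, z, w, v)) =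
        (univ : Finset {x // x ∈ X}).image
          (fun a => (a, a.1 * x.1 - y, a.1 * y - z, a.1 * z - w,
            (a.1 * x.1 - y) * z - 2 * (a.1 * y - z) * y + (a.1 * z - w) * x.1 - v)) := by
      ext ⟨a, b, c, d, e⟩
      simp only [mem_filter, mem_univ, true_and, mem_image, Prod.mk.injEq, exists_eq_left]
      simp only [inc12]
      constructor
      · rintro ⟨e1, e2, e3, e4⟩
        have f1 : b = a.1 * x.1 - y := by linear_combination e1
        have f2 : c = a.1 * y - z := by linear_combination e2
        have f3 : d = a.1 * z - w := by linear_combination e3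
        refine ⟨f1.symm, f2.symm, f3.symm, ?_⟩
        rw [← f1, ← f2, ← f3]
        linear_combination -e4
      · rintro ⟨e1, e2, e3, e4⟩
        rw [e1, e2, e3] at e4
        exact ⟨by linear_combination -e1, by linear_combination -e2,
          by linear_combination -e3, by linear_combination -e4⟩
    rw [this, card_image_of_injective _ (fun a b h => (Prod.ext_iff.1 h).1), card_univ,
      Fintype.card_coe, hXk]
  have hreg := incGraph_regular (inc12 X X) k hIP hIL
  have hgirth : (incGraph (inc12 X X)).egirth = 12 := by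
    apply le_antisymm
    · let z0 : {x // x ∈ X} := ⟨0, hX0⟩
      let z1 : {x // x ∈ X} := ⟨1, hX1⟩
      let z2 : {x // x ∈ X} := ⟨2, hX2⟩
      have h01 : z0 ≠ z1 := fun h => h1 (congrArg Subtype.val h).symm
      have h02 : z0 ≠ z2 := fun h => h2 (congrArg Subtype.val h).symm
      have h12 : z1 ≠ z2 := fun h => h21 (congrArg Subtype.val h).symm
      have := egirth_incGraph_le (I := inc12 X X) 6 (by norm_num)
        ![(z0, 0, 0, 0, 0), (z1, 2, 0, 0, 0), (z0, 2, 2, 2, 8), (z1, 3, 0, 0, -4),
          (z0, 1, 1, 1, 2), (z1, 1, 0, 0, 0)]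
        ![(z2, 0, 0, 0, 0), (z0, -2, -2, -2, -4), (z1, -2, -2, -2, -2), (z2, -1, -1, -1, 1),
          (z0, -1, -1, -1, -1), (z1, 0, 0, 0, 0)]
        (inj12p h2 z0 z1 h01) (inj12l h2 z0 z1 z2 h01 h02 h12)
        (by
          intro j
          fin_cases j <;> simp [inc12, z0, z1, z2] <;> norm_num)
        (by
          intro j
          fin_cases j <;> simp [inc12, z0, z1, z2] <;> norm_num)
      simpa using this
    · have := le_egirth_incGraph (I := inc12 X X) 5 (by
        intro m hm2 hm3 p l e1 e2 e3 e4 e5 e6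
        have pdet : ∀ (p p' : {x // x ∈ X} × F × F × F × F) (l : {x // x ∈ X} × F × F × F × F),
            inc12 X X p l → inc12 X X p' l → p.1.1 = p'.1.1 → p = p' := by
          rintro ⟨a, b, c, d, e⟩ ⟨a', b', c', d', e'⟩ ⟨x, y, z, w, v⟩ ⟨g1, g2, g3, g4⟩
            ⟨k1, k2, k3, k4⟩ g5
          simp only [] at g1 g2 g3 g4 g5 k1 k2 k3 k4
          have : a = a' := Subtype.ext g5
          subst this
          have hb : b = b' := by linear_combination g1 - k1
          have hc : c = c' := by linear_combination g2 - k2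
          have hd : d = d' := by linear_combination g3 - k3
          subst hb hc hd
          have he : e = e' := by linear_combination g4 - k4
          rw [he]
        have ldet : ∀ (p : {x // x ∈ X} × F × F × F × F) (l l' : {x // x ∈ X} × F × F × F × F),
            inc12 X X p l → inc12 X X p l' → l.1.1 = l'.1.1 → l = l' := by
          rintro ⟨a, b, c, d, e⟩ ⟨x, y, z, w, v⟩ ⟨x', y', z', w', v'⟩ ⟨g1, g2, g3, g4⟩
            ⟨k1, k2, k3, k4⟩ g5
          simp only [] at g1 g2 g3 g4 g5 k1 k2 k3 k4
          have : x = x' := Subtype.ext g5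
          subst this
          have hb : y = y' := by linear_combination g1 - k1
          subst hb
          have hc : z = z' := by linear_combination g2 - k2
          subst hc
          have hd : w = w' := by linear_combination g3 - k3
          have he : v = v' := by linear_combination g4 - k4
          rw [hd, he]
        exact no_short_twelve h2 hm2 hm3 (fun j => (p j).1.1) (fun j => (p j).2.1)
          (fun j => (p j).2.2.1) (fun j => (p j).2.2.2.1) (fun j => (p j).2.2.2.2)
          (fun j => (l j).1.1) (fun j => (l j).2.1) (fun j => (l j).2.2.1)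
          (fun j => (l j).2.2.2.1) (fun j => (l j).2.2.2.2)
          (fun j => (e1 j).1) (fun j => (e2 j).1) (fun j => (e1 j).2.1) (fun j => (e2 j).2.1)
          (fun j => (e1 j).2.2.1) (fun j => (e2 j).2.2.1)
          (fun j => (e1 j).2.2.2) (fun j => (e2 j).2.2.2)
          (fun j => by simp only [e3]) (fun j => by simp only [e4]) (fun j => by simp only [e4])
          (fun j => by simp only [e4]) (fun j => by simp only [e4]) (fun j => by simp only [e4])
          (fun j h => e5 j (pdet _ _ _ (e1 j) (e2 j) h))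
          (fun j h => e6 j (ldet _ _ _ (e2 j) (e1 (j + 1)) h)))
      simpa using this
  obtain ⟨H, hdec, h3, h4⟩ := exists_fin_graph (n := 2 * (k * (Fintype.card F) ^ 4)) _ hreg hgirth
    (by
      rw [Fintype.card_sum, Fintype.card_prod, Fintype.card_prod, Fintype.card_prod,
        Fintype.card_prod, Fintype.card_coe, hXk]
      ring)
  exact ⟨H, hdec, h3, h4⟩

end Pool.Agent.Lib.Helper15
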