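import Mathlib

/-!
# Certificates for primes in short (multiplicative) intervals

A finite list `cf` of pairs `(c, d)` defines the step function
`beta cf s = ∑ c * ⌊s / d⌋`.  If `∑ c / d = 0` and `beta cf` is at most `K` on
`[a * μ, b * μ)`, at most `e` on `[s₀, ∞)` and at most `0` elsewhere, then one gets a lower bound
for `∑ vonMangoldt n` over `N < n ≤ b * N / a`.
-/

namespace Pool.Agent.Lib.Helper15

open Finset Real ArithmeticFunction
open scoped ArithmeticFunction.zeta Chebyshev Nat

/-- `log m! = ∑ vonMangoldt n ⌊m / n⌋`. -/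
theorem log_factorial_eq (m : ℕ) :
    Real.log ((m ! : ℕ) : ℝ) = ∑ n ∈ Ioc 0 m, vonMangoldt n * ((m / n : ℕ) : ℝ) := by
  rw [← sum_Ioc_mul_zeta_eq_sum, vonMangoldt_mul_zeta]
  induction m with
  | zero => simp
  | succ m ih =>
    rw [Finset.sum_Ioc_succ_top (Nat.zero_le m), ← ih, Nat.factorial_succ, Nat.cast_mul,
      Real.log_mul (by positivity) (by positivity), ArithmeticFunction.log_apply, add_comm]

/-- the step function attached to a list of coefficients -/
def beta (cf : List (ℤ × ℕ)) (s : ℕ) : ℤ := (cf.map fun x => x.1 * ((s / x.2 : ℕ) : ℤ)).sum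

theorem sum_log_factorial (cf : List (ℤ × ℕ)) (X : ℕ) :
    (cf.map fun x => (x.1 : ℝ) * Real.log (((X / x.2)! : ℕ) : ℝ)).sum =
      ∑ n ∈ Ioc 0 X, vonMangoldt n * (beta cf (X / n) : ℝ) := by
  induction cf with
  | nil => simp [beta]
  | cons x cf ih =>
    have h1 : ∀ s, (beta (x :: cf) s : ℝ) = (x.1 : ℝ) * ((s / x.2 : ℕ) : ℝ) + (beta cf s : ℝ) := by
      intro s
      simp only [beta, List.map_cons, List.sum_cons, Int.cast_add, Int.cast_mul,
        Int.cast_natCast]
    simp only [List.map_cons, List.sum_cons, ih, h1, mul_add, sum_add_distrib]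
    congr 1
    rw [log_factorial_eq, mul_sum]
    have hsub : Ioc 0 (X / x.2) ⊆ Ioc 0 X := Ioc_subset_Ioc_right (Nat.div_le_self _ _)
    rw [← sum_subset hsub]
    · refine sum_congr rfl fun n _ => ?_
      rw [Nat.div_div_eq_div_mul, Nat.div_div_eq_div_mul, Nat.mul_comm x.2 n]
      ring
    · intro n hn hn'
      have h2 : X / n / x.2 = 0 := by
        rw [Nat.div_div_eq_div_mul, Nat.mul_comm, ← Nat.div_div_eq_div_mul]
        apply Nat.div_eq_of_lt
        simp only [mem_Ioc] at hn hn'
        omega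
      rw [h2]; simp

theorem log_factorial_upper {m : ℕ} (hm : 1 ≤ m) :
    Real.log ((m ! : ℕ) : ℝ) ≤ m * Real.log m - m + 1 + Real.log m := by
  induction m, hm using Nat.le_induction with
  | base => simp
  | succ m hm ih =>
    rw [Nat.factorial_succ, Nat.cast_mul, Real.log_mul (by positivity) (by positivity)]
    have hm0 : (0 : ℝ) < m := by exact_mod_cast hm
    -- need: m log m - m + 1 + log m ≤ (m+1) log (m+1) - (m+1) + 1
    have h1 : Real.log m ≤ Real.log (m + 1) - 1 / (m + 1) := by
      have h2 : Real.log (m / (m + 1)) ≤ m / (m + 1) - 1 :=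
        Real.log_le_sub_one_of_pos (by positivity)
      rw [Real.log_div (by positivity) (by positivity)] at h2
      have h3 : (m : ℝ) / (m + 1) - 1 = - (1 / (m + 1)) := by field_simp; ring
      linarith
    push_cast
    have h4 : ((m : ℝ) + 1) * Real.log m ≤ (m + 1) * (Real.log (m + 1) - 1 / (m + 1)) := by
      gcongr
    have h5 : ((m : ℝ) + 1) * (Real.log (m + 1) - 1 / (m + 1)) = (m + 1) * Real.log (m + 1) - 1 := by
      field_simp
    linarith

theorem log_factorial_lower {m : ℕ} (hm : 1 ≤ m) :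
    m * Real.log m - m + 1 ≤ Real.log ((m ! : ℕ) : ℝ) := by
  induction m, hm using Nat.le_induction with
  | base => simp
  | succ m hm ih =>
    rw [Nat.factorial_succ, Nat.cast_mul, Real.log_mul (by positivity) (by positivity)]
    have hm0 : (0 : ℝ) < m := by exact_mod_cast hm
    -- need : (m+1) log (m+1) - m ≤ log (m+1) + m log m - m + 1, i.e. m (log (m+1) - log m) ≤ 1
    have h1 : Real.log (m + 1) - Real.log m ≤ 1 / m := by
      rw [← Real.log_div (by positivity) (by positivity)]
      have h2 := Real.log_le_sub_one_of_pos (x := ((m : ℝ) + 1) / m) (by positivity)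
      have h3 : ((m : ℝ) + 1) / m - 1 = 1 / m := by field_simp; ring
      linarith
    push_cast
    have h4 : (m : ℝ) * (Real.log (m + 1) - Real.log m) ≤ m * (1 / m) := by gcongr
    have h5 : (m : ℝ) * (1 / m) = 1 := by field_simp
    linarith

/-- `T(z) = log ⌊z⌋!` compared with `z log z - z`. -/
theorem abs_log_factorial_floor_sub {X d : ℕ} (hd : 1 ≤ d) (hdX : d ≤ X) :
    |Real.log (((X / d)! : ℕ) : ℝ) - ((X / d : ℝ) * Real.log (X / d : ℝ) - X / d)| ≤
      Real.log X + 1 := by
  set m := X / d with hmdef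
  have hm : 1 ≤ m := (Nat.one_le_div_iff (by omega)).2 hdX
  set z : ℝ := (X : ℝ) / d with hz
  have hd0 : (0 : ℝ) < d := by exact_mod_cast hd
  have hm0 : (1 : ℝ) ≤ m := by exact_mod_cast hm
  have hmz : (m : ℝ) ≤ z := Nat.cast_div_le
  have hzm : z < m + 1 := by
    rw [hz, div_lt_iff₀ hd0]
    have := Nat.lt_mul_div_succ X (by omega : 0 < d)
    have h : (X : ℝ) < d * (m + 1) := by exact_mod_cast this
    linarith
  have hz1 : 1 ≤ z := hm0.trans hmz
  have hzX : z ≤ X := div_le_self (by positivity) (by exact_mod_cast hd)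
  have hlogz : Real.log z ≤ Real.log X := Real.log_le_log (by linarith) hzX
  have hlogz0 : 0 ≤ Real.log z := Real.log_nonneg hz1
  have hlogm : Real.log m ≤ Real.log z := Real.log_le_log (by linarith) hmz
  have hlogm0 : 0 ≤ Real.log m := Real.log_nonneg hm0
  have hup := log_factorial_upper hm
  have hlo := log_factorial_lower hm
  -- compare m log m - m with z log z - z
  have h1 : Real.log z - Real.log m ≤ (z - m) / m := by
    rw [← Real.log_div (by linarith) (by linarith)]
    have h2 := Real.log_le_sub_one_of_pos (x := z / m) (by positivity)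
    have h3 : z / m - 1 = (z - m) / m := by field_simp
    linarith
  have h2 : (m : ℝ) * (Real.log z - Real.log m) ≤ z - m := by
    calc (m : ℝ) * (Real.log z - Real.log m) ≤ m * ((z - m) / m) := by gcongr
      _ = z - m := by field_simp
  have h3 : z * Real.log z - z ≤ m * Real.log m - m + Real.log z := by
    have h4 : (z - m) * Real.log z ≤ 1 * Real.log z := by
      apply mul_le_mul_of_nonneg_right _ hlogz0
      linarith
    nlinarith
  have h5 : m * Real.log m - m ≤ z * Real.log z - z := by
    -- (z log z - z) - (m log m - m) = m (log z - log m) + (z-m) log z - (z - m); use convexity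
    have h6 : (m : ℝ) / z - 1 ≥ Real.log (m / z) := Real.log_le_sub_one_of_pos (by positivity)
    rw [Real.log_div (by linarith) (by linarith)] at h6
    have h7 : z * (Real.log m - Real.log z) ≤ m - z := by
      calc z * (Real.log m - Real.log z) ≤ z * ((m : ℝ) / z - 1) := by gcongr
        _ = m - z := by field_simp
    have h8 : (m : ℝ) * Real.log m ≤ z * Real.log m := by gcongr
    nlinarith
  rw [abs_le]
  constructor <;> linarith

theorem sum_log_factorial_ge (cf : List (ℤ × ℕ)) (X : ℕ) (hd : ∀ x ∈ cf, 1 ≤ x.2 ∧ x.2 ≤ X) :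
    X * (Real.log X - 1) * (cf.map fun x => (x.1 : ℝ) / x.2).sum
      - X * (cf.map fun x => (x.1 : ℝ) / x.2 * Real.log x.2).sum
      - (cf.map fun x => |(x.1 : ℝ)|).sum * (Real.log X + 1) ≤
    (cf.map fun x => (x.1 : ℝ) * Real.log (((X / x.2)! : ℕ) : ℝ)).sum := by
  induction cf with
  | nil => simp
  | cons x cf ih =>
    have ih' := ih (fun y hy => hd y (List.mem_cons_of_mem _ hy))
    obtain ⟨h1, h2⟩ := hd x List.mem_cons_self
    simp only [List.map_cons, List.sum_cons]
    have hX0 : (0 : ℝ) < X := by exact_mod_cast (by omega : 0 < X)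
    have hd0 : (0 : ℝ) < x.2 := by exact_mod_cast h1
    have key := abs_log_factorial_floor_sub h1 h2
    rw [Real.log_div hX0.ne' hd0.ne'] at key
    have key2 : -(|(x.1 : ℝ)| * (Real.log X + 1)) ≤
        (x.1 : ℝ) * (Real.log (((X / x.2)! : ℕ) : ℝ) -
          ((X / x.2 : ℝ) * (Real.log X - Real.log x.2) - X / x.2)) := by
      refine (neg_le_neg (mul_le_mul_of_nonneg_left key (abs_nonneg _))).trans ?_
      rw [← abs_mul]
      exact neg_abs_le _
    have e1 : (X : ℝ) * (Real.log X - 1) * ((x.1 : ℝ) / x.2) =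
        (x.1 : ℝ) * ((X / x.2 : ℝ) * Real.log X - X / x.2) := by
      field_simp
    have e2 : (X : ℝ) * ((x.1 : ℝ) / x.2 * Real.log x.2) =
        (x.1 : ℝ) * ((X / x.2 : ℝ) * Real.log x.2) := by
      field_simp
    nlinarith [key2, ih', e1, e2]

theorem psi_sub_theta_le_sqrt {x : ℝ} (h : 1 ≤ x) :
    ψ x - θ x ≤ 3 * (Real.log 4 + 4) * √x := by
  have key (n : ℕ) (hn : 2 ≤ n) : ψ (x ^ (1 / (n : ℝ))) ≤ (Real.log 4 + 4) * x.sqrt := by
    grw [Chebyshev.psi_le_const_mul_self (by positivity), sqrt_eq_rpow x]; gcongr; norm_cast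
  have h2 := key 2 (le_refl _)
  have h3 := key 3 (by norm_num)
  have h5 := key 5 (by norm_num)
  have h := Chebyshev.psi_sub_theta_le_psi_add_psi_add_psi x
  norm_num at h2 h3 h5 h
  linarith

theorem psi_le_sqrt {x : ℝ} (h : 1 ≤ x) :
    ψ x ≤ Real.log 4 * x + 3 * (Real.log 4 + 4) * √x := by
  have h1 := psi_sub_theta_le_sqrt h
  have h2 := Chebyshev.theta_le_log4_mul_x (x := x) (by linarith)
  linarith

end Pool.Agent.Lib.Helper15
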