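import Mathlib
import Pool.Agent.Lib.Helper15.PrimeGapCert

/-!
# Primes between `N` and `7 * N / 6`

For every `N ≥ 25` there is a prime `p` with `N ≤ p ≤ 7 * N / 6`.
-/

namespace Pool.Agent.Lib.Helper15

open Finset Real ArithmeticFunction
open scoped ArithmeticFunction.zeta Chebyshev Nat

theorem sum_beta_le (cf : List (ℤ × ℕ)) (a b μ K s₀ e N : ℕ) (ha : 0 < a) (hb : 0 < b) (hμ : 0 < μ)
    (hs₀ : 0 < s₀)
    (hβ : ∀ s, beta cf s ≤ (if a * μ ≤ s ∧ s < b * μ then (K : ℤ) else 0) +
      (if s₀ ≤ s then (e : ℤ) else 0))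
    (hnp : ∀ p : ℕ, p.Prime → N < p → ¬ a * p ≤ b * N) :
    ∑ n ∈ Ioc 0 (b * μ * N), vonMangoldt n * (beta cf (b * μ * N / n) : ℝ) ≤
      K * (ψ ((b * N / a : ℕ) : ℝ) - θ ((b * N / a : ℕ) : ℝ)) + e * ψ ((b * μ * N / s₀ : ℕ) : ℝ) := by
  set X := b * μ * N with hX
  have h1 : ∑ n ∈ Ioc 0 X, vonMangoldt n * (beta cf (X / n) : ℝ) ≤
      ∑ n ∈ Ioc 0 X, (vonMangoldt n * (if a * μ ≤ X / n ∧ X / n < b * μ then (K : ℝ) else 0) +
        vonMangoldt n * (if s₀ ≤ X / n then (e : ℝ) else 0)) := by
    apply sum_le_sum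
    intro n _
    rw [← mul_add]
    apply mul_le_mul_of_nonneg_left _ vonMangoldt_nonneg
    have := hβ (X / n)
    have h2 : ((beta cf (X / n) : ℤ) : ℝ) ≤ (((if a * μ ≤ X / n ∧ X / n < b * μ then (K : ℤ) else 0) +
      (if s₀ ≤ X / n then (e : ℤ) else 0) : ℤ) : ℝ) := by exact_mod_cast this
    refine h2.trans (le_of_eq ?_)
    split_ifs <;> simp
  refine h1.trans ?_
  rw [sum_add_distrib]
  apply add_le_add
  · rw [Chebyshev.psi_sub_theta_eq_sum_not_prime, Nat.floor_natCast, mul_sum]
    simp only [mul_ite, mul_zero]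
    rw [← sum_filter]
    have hsub : (Ioc 0 X).filter (fun n => a * μ ≤ X / n ∧ X / n < b * μ) ⊆
        (Ioc 0 (b * N / a)).filter (fun n => ¬ n.Prime) := by
      intro n hn
      simp only [mem_filter, mem_Ioc] at hn ⊢
      obtain ⟨⟨hn0, hnX⟩, hn1, hn2⟩ := hn
      have h3 : N < n := by
        rw [Nat.div_lt_iff_lt_mul hn0] at hn2
        have : b * μ * N < b * μ * n := hn2
        exact lt_of_mul_lt_mul_left this (Nat.zero_le _)
      have h4 : a * n ≤ b * N := by
        rw [Nat.le_div_iff_mul_le hn0] at hn1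
        have : μ * (a * n) ≤ μ * (b * N) := by
          calc μ * (a * n) = a * μ * n := by ring
            _ ≤ X := hn1
            _ = μ * (b * N) := by rw [hX]; ring
        exact le_of_mul_le_mul_left this hμ
      refine ⟨⟨hn0, ?_⟩, ?_⟩
      · rw [Nat.le_div_iff_mul_le ha]; linarith
      · intro hp
        exact hnp n hp h3 h4
    refine (sum_le_sum_of_subset_of_nonneg hsub ?_).trans (le_of_eq ?_)
    · intro i _ _
      exact mul_nonneg vonMangoldt_nonneg (Nat.cast_nonneg _)
    · refine sum_congr rfl fun n _ => ?_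
      ring
  · rw [Chebyshev.psi, Nat.floor_natCast, mul_sum]
    simp only [mul_ite, mul_zero]
    rw [← sum_filter]
    have hsub : (Ioc 0 X).filter (fun n => s₀ ≤ X / n) ⊆ Ioc 0 (X / s₀) := by
      intro n hn
      simp only [mem_filter, mem_Ioc] at hn ⊢
      obtain ⟨⟨hn0, hnX⟩, hn1⟩ := hn
      refine ⟨hn0, ?_⟩
      rw [Nat.le_div_iff_mul_le hn0] at hn1
      rw [Nat.le_div_iff_mul_le hs₀]
      linarith
    refine (sum_le_sum_of_subset_of_nonneg hsub ?_).trans (le_of_eq ?_)
    · intro i _ _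
      exact mul_nonneg vonMangoldt_nonneg (Nat.cast_nonneg _)
    · refine sum_congr rfl fun n _ => ?_
      ring

/-- the certificate for the ratio `7/6` -/
def cert76 : List (ℤ × ℕ) :=
  [(3, 6), (-3, 7), (-3, 12), (3, 14), (-3, 18), (3, 21), (-3, 30), (3, 35), (3, 36), (-6, 42),
   (-1, 56), (4, 60), (-3, 70), (3, 84), (3, 90), (-5, 105), (1, 120), (4, 126), (-1, 168),
   (-5, 180), (7, 210), (-7, 252), (1, 280), (3, 315), (3, 360), (-4, 420), (5, 504), (-6, 630),
   (4, 840), (8, 1260), (-2, 2520)]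

theorem beta_cert76_period (s : ℕ) : beta cert76 s = beta cert76 (s % 2520) := by
  have key : ∀ d : ℕ, 0 < d → d ∣ 2520 → ((s / d : ℕ) : ℤ) =
      ((s % 2520 / d : ℕ) : ℤ) + ((s / 2520 : ℕ) : ℤ) * ((2520 / d : ℕ) : ℤ) := by
    intro d hd hdvd
    obtain ⟨r, hr⟩ := hdvd
    have h1 : s = s % 2520 + d * (r * (s / 2520)) := by
      have := Nat.mod_add_div s 2520
      rw [hr] at this ⊢
      rw [← mul_assoc]
      exact this.symm
    have h2 : 2520 / d = r := by rw [hr]; exact Nat.mul_div_cancel_left r hd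
    rw [h2]
    conv_lhs => rw [h1]
    rw [Nat.add_mul_div_left _ _ hd]
    push_cast
    ring
  simp only [beta, cert76, List.map_cons, List.map_nil, List.sum_cons, List.sum_nil]
  rw [key 6 (by norm_num) (by norm_num), key 7 (by norm_num) (by norm_num),
    key 12 (by norm_num) (by norm_num), key 14 (by norm_num) (by norm_num),
    key 18 (by norm_num) (by norm_num), key 21 (by norm_num) (by norm_num),
    key 30 (by norm_num) (by norm_num), key 35 (by norm_num) (by norm_num),
    key 36 (by norm_num) (by norm_num), key 42 (by norm_num) (by norm_num),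
    key 56 (by norm_num) (by norm_num), key 60 (by norm_num) (by norm_num),
    key 70 (by norm_num) (by norm_num), key 84 (by norm_num) (by norm_num),
    key 90 (by norm_num) (by norm_num), key 105 (by norm_num) (by norm_num),
    key 120 (by norm_num) (by norm_num), key 126 (by norm_num) (by norm_num),
    key 168 (by norm_num) (by norm_num), key 180 (by norm_num) (by norm_num),
    key 210 (by norm_num) (by norm_num), key 252 (by norm_num) (by norm_num),
    key 280 (by norm_num) (by norm_num), key 315 (by norm_num) (by norm_num),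
    key 360 (by norm_num) (by norm_num), key 420 (by norm_num) (by norm_num),
    key 504 (by norm_num) (by norm_num), key 630 (by norm_num) (by norm_num),
    key 840 (by norm_num) (by norm_num), key 1260 (by norm_num) (by norm_num),
    key 2520 (by norm_num) (by norm_num)]
  norm_num
  ring

theorem beta_cert76_check : ∀ s < 2520, beta cert76 s ≤
    (if 6 * 1 ≤ s ∧ s < 7 * 1 then 3 else 0) + (if 1517 ≤ s then 3 else 0) := by
  decide +kernel

theorem beta_cert76_le (s : ℕ) : beta cert76 s ≤
    (if 6 * 1 ≤ s ∧ s < 7 * 1 then ((3 : ℕ) : ℤ) else 0) + (if 1517 ≤ s then ((3 : ℕ) : ℤ) else 0) := by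
  by_cases hs : s < 2520
  · exact beta_cert76_check s hs
  · rw [beta_cert76_period]
    have h := beta_cert76_check (s % 2520) (Nat.mod_lt _ (by norm_num))
    rw [if_neg (by omega : ¬ (6 * 1 ≤ s ∧ s < 7 * 1)), if_pos (by omega : 1517 ≤ s)]
    refine h.trans ?_
    split_ifs <;> omega

end Pool.Agent.Lib.Helper15

namespace Pool.Agent.Lib.Helper15

open Finset Real ArithmeticFunction
open scoped ArithmeticFunction.zeta Chebyshev Nat

theorem log_smooth (n a b c e : ℕ) (h : n = 2 ^ a * 3 ^ b * 5 ^ c * 7 ^ e) :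
    Real.log (n : ℝ) = (a : ℝ) * Real.log 2 + (b : ℝ) * Real.log 3 + (c : ℝ) * Real.log 5 +
      (e : ℝ) * Real.log 7 := by
  rw [h]
  push_cast
  rw [Real.log_mul (by positivity) (by positivity), Real.log_mul (by positivity) (by positivity),
    Real.log_mul (by positivity) (by positivity), Real.log_pow, Real.log_pow, Real.log_pow,
    Real.log_pow]

theorem cert76_S2 : (cert76.map fun x => (x.1 : ℝ) / x.2 * Real.log x.2).sum =
    - (1 / 7) * (49 / 45 * Real.log 7 - 19 / 20 * (Real.log 2 + Real.log 3) - 11 / 72 * Real.log 5) := by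
  have h6 : Real.log 6 = 1 * Real.log 2 + 1 * Real.log 3 + 0 * Real.log 5 + 0 * Real.log 7 := by
    exact_mod_cast log_smooth 6 1 1 0 0 (by norm_num)
  have h12 : Real.log 12 = 2 * Real.log 2 + 1 * Real.log 3 + 0 * Real.log 5 + 0 * Real.log 7 := by
    exact_mod_cast log_smooth 12 2 1 0 0 (by norm_num)
  have h14 : Real.log 14 = 1 * Real.log 2 + 0 * Real.log 3 + 0 * Real.log 5 + 1 * Real.log 7 := by
    exact_mod_cast log_smooth 14 1 0 0 1 (by norm_num)
  have h18 : Real.log 18 = 1 * Real.log 2 + 2 * Real.log 3 + 0 * Real.log 5 + 0 * Real.log 7 := by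
    exact_mod_cast log_smooth 18 1 2 0 0 (by norm_num)
  have h21 : Real.log 21 = 0 * Real.log 2 + 1 * Real.log 3 + 0 * Real.log 5 + 1 * Real.log 7 := by
    exact_mod_cast log_smooth 21 0 1 0 1 (by norm_num)
  have h30 : Real.log 30 = 1 * Real.log 2 + 1 * Real.log 3 + 1 * Real.log 5 + 0 * Real.log 7 := by
    exact_mod_cast log_smooth 30 1 1 1 0 (by norm_num)
  have h35 : Real.log 35 = 0 * Real.log 2 + 0 * Real.log 3 + 1 * Real.log 5 + 1 * Real.log 7 := by
    exact_mod_cast log_smooth 35 0 0 1 1 (by norm_num)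
  have h36 : Real.log 36 = 2 * Real.log 2 + 2 * Real.log 3 + 0 * Real.log 5 + 0 * Real.log 7 := by
    exact_mod_cast log_smooth 36 2 2 0 0 (by norm_num)
  have h42 : Real.log 42 = 1 * Real.log 2 + 1 * Real.log 3 + 0 * Real.log 5 + 1 * Real.log 7 := by
    exact_mod_cast log_smooth 42 1 1 0 1 (by norm_num)
  have h56 : Real.log 56 = 3 * Real.log 2 + 0 * Real.log 3 + 0 * Real.log 5 + 1 * Real.log 7 := by
    exact_mod_cast log_smooth 56 3 0 0 1 (by norm_num)
  have h60 : Real.log 60 = 2 * Real.log 2 + 1 * Real.log 3 + 1 * Real.log 5 + 0 * Real.log 7 := by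
    exact_mod_cast log_smooth 60 2 1 1 0 (by norm_num)
  have h70 : Real.log 70 = 1 * Real.log 2 + 0 * Real.log 3 + 1 * Real.log 5 + 1 * Real.log 7 := by
    exact_mod_cast log_smooth 70 1 0 1 1 (by norm_num)
  have h84 : Real.log 84 = 2 * Real.log 2 + 1 * Real.log 3 + 0 * Real.log 5 + 1 * Real.log 7 := by
    exact_mod_cast log_smooth 84 2 1 0 1 (by norm_num)
  have h90 : Real.log 90 = 1 * Real.log 2 + 2 * Real.log 3 + 1 * Real.log 5 + 0 * Real.log 7 := by
    exact_mod_cast log_smooth 90 1 2 1 0 (by norm_num)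
  have h105 : Real.log 105 = 0 * Real.log 2 + 1 * Real.log 3 + 1 * Real.log 5 + 1 * Real.log 7 := by
    exact_mod_cast log_smooth 105 0 1 1 1 (by norm_num)
  have h120 : Real.log 120 = 3 * Real.log 2 + 1 * Real.log 3 + 1 * Real.log 5 + 0 * Real.log 7 := by
    exact_mod_cast log_smooth 120 3 1 1 0 (by norm_num)
  have h126 : Real.log 126 = 1 * Real.log 2 + 2 * Real.log 3 + 0 * Real.log 5 + 1 * Real.log 7 := by
    exact_mod_cast log_smooth 126 1 2 0 1 (by norm_num)
  have h168 : Real.log 168 = 3 * Real.log 2 + 1 * Real.log 3 + 0 * Real.log 5 + 1 * Real.log 7 := by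
    exact_mod_cast log_smooth 168 3 1 0 1 (by norm_num)
  have h180 : Real.log 180 = 2 * Real.log 2 + 2 * Real.log 3 + 1 * Real.log 5 + 0 * Real.log 7 := by
    exact_mod_cast log_smooth 180 2 2 1 0 (by norm_num)
  have h210 : Real.log 210 = 1 * Real.log 2 + 1 * Real.log 3 + 1 * Real.log 5 + 1 * Real.log 7 := by
    exact_mod_cast log_smooth 210 1 1 1 1 (by norm_num)
  have h252 : Real.log 252 = 2 * Real.log 2 + 2 * Real.log 3 + 0 * Real.log 5 + 1 * Real.log 7 := by
    exact_mod_cast log_smooth 252 2 2 0 1 (by norm_num)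
  have h280 : Real.log 280 = 3 * Real.log 2 + 0 * Real.log 3 + 1 * Real.log 5 + 1 * Real.log 7 := by
    exact_mod_cast log_smooth 280 3 0 1 1 (by norm_num)
  have h315 : Real.log 315 = 0 * Real.log 2 + 2 * Real.log 3 + 1 * Real.log 5 + 1 * Real.log 7 := by
    exact_mod_cast log_smooth 315 0 2 1 1 (by norm_num)
  have h360 : Real.log 360 = 3 * Real.log 2 + 2 * Real.log 3 + 1 * Real.log 5 + 0 * Real.log 7 := by
    exact_mod_cast log_smooth 360 3 2 1 0 (by norm_num)
  have h420 : Real.log 420 = 2 * Real.log 2 + 1 * Real.log 3 + 1 * Real.log 5 + 1 * Real.log 7 := by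
    exact_mod_cast log_smooth 420 2 1 1 1 (by norm_num)
  have h504 : Real.log 504 = 3 * Real.log 2 + 2 * Real.log 3 + 0 * Real.log 5 + 1 * Real.log 7 := by
    exact_mod_cast log_smooth 504 3 2 0 1 (by norm_num)
  have h630 : Real.log 630 = 1 * Real.log 2 + 2 * Real.log 3 + 1 * Real.log 5 + 1 * Real.log 7 := by
    exact_mod_cast log_smooth 630 1 2 1 1 (by norm_num)
  have h840 : Real.log 840 = 3 * Real.log 2 + 1 * Real.log 3 + 1 * Real.log 5 + 1 * Real.log 7 := by
    exact_mod_cast log_smooth 840 3 1 1 1 (by norm_num)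
  have h1260 : Real.log 1260 = 2 * Real.log 2 + 2 * Real.log 3 + 1 * Real.log 5 + 1 * Real.log 7 := by
    exact_mod_cast log_smooth 1260 2 2 1 1 (by norm_num)
  have h2520 : Real.log 2520 = 3 * Real.log 2 + 2 * Real.log 3 + 1 * Real.log 5 + 1 * Real.log 7 := by
    exact_mod_cast log_smooth 2520 3 2 1 1 (by norm_num)
  simp only [cert76, List.map_cons, List.map_nil, List.sum_cons, List.sum_nil]
  push_cast
  rw [h6, h12, h14, h18, h21, h30, h35, h36, h42, h56, h60, h70, h84, h90, h105, h120, h126, h168,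
    h180, h210, h252, h280, h315, h360, h420, h504, h630, h840, h1260, h2520]
  ring

theorem cert76_S1 : (cert76.map fun x => (x.1 : ℝ) / x.2).sum = 0 := by
  simp only [cert76, List.map_cons, List.map_nil, List.sum_cons, List.sum_nil]
  norm_num

theorem cert76_S3 : (cert76.map fun x => |(x.1 : ℝ)|).sum = 113 := by
  simp only [cert76, List.map_cons, List.map_nil, List.sum_cons, List.sum_nil]
  norm_num [abs_of_nonneg, abs_of_neg]

theorem cert76_nat : (6 ^ 342 * 5 ^ 55 * 2 ^ 88 : ℕ) ≤ 7 ^ 392 := by decide +kernel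

theorem cert76_const : (0.169 : ℝ) ≤
    49 / 45 * Real.log 7 - 19 / 20 * (Real.log 2 + Real.log 3) - 11 / 72 * Real.log 5 := by
  have key : ((6 : ℝ) ^ 342 * 5 ^ 55 * 2 ^ 88) ≤ 7 ^ 392 := by exact_mod_cast cert76_nat
  have h := Real.log_le_log (by positivity) key
  rw [Real.log_mul (by positivity) (by positivity), Real.log_mul (by positivity) (by positivity),
    Real.log_pow, Real.log_pow, Real.log_pow, Real.log_pow] at h
  have h6 : Real.log 6 = Real.log 2 + Real.log 3 := by
    rw [show (6 : ℝ) = 2 * 3 by norm_num, Real.log_mul (by norm_num) (by norm_num)]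
  rw [h6] at h
  simp only [Nat.cast_ofNat] at h
  have h2 := Real.log_two_gt_d9
  linarith

theorem exists_prime_of_large {N : ℕ} (hN : 262144 ≤ N) :
    ∃ p : ℕ, p.Prime ∧ N < p ∧ 6 * p ≤ 7 * N := by
  by_contra! hcon
  have hnp : ∀ p : ℕ, p.Prime → N < p → ¬ 6 * p ≤ 7 * N := fun p hp h1 => not_le.2 (hcon p hp h1)
  have hup := sum_beta_le cert76 6 7 1 3 1517 3 N (by norm_num) (by norm_num) (by norm_num)
    (by norm_num) beta_cert76_le hnp
  rw [← sum_log_factorial] at hup
  have hlo := sum_log_factorial_ge cert76 (7 * 1 * N) (by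
    intro x hx
    simp only [cert76, List.mem_cons, List.not_mem_nil, or_false] at hx
    rcases hx with h | h | h | h | h | h | h | h | h | h | h | h | h | h | h | h | h | h | h | h |
      h | h | h | h | h | h | h | h | h | h | h <;> subst h <;> constructor <;> norm_num <;> omega)
  rw [cert76_S1, cert76_S2, cert76_S3] at hlo
  have hN1 : (262144 : ℝ) ≤ N := by exact_mod_cast hN
  have hN0 : (0 : ℝ) < N := by linarith
  set u : ℝ := √(N : ℝ) with hu
  have hu2 : u * u = N := Real.mul_self_sqrt hN0.le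
  have hu0 : 0 ≤ u := Real.sqrt_nonneg _
  have hu512 : 512 ≤ u := by
    apply Real.le_sqrt_of_sq_le
    norm_num
    exact hN
  have hl2 := Real.log_two_lt_d9
  have hl4 : Real.log 4 = 2 * Real.log 2 := by
    rw [show (4 : ℝ) = 2 ^ 2 by norm_num, Real.log_pow]; norm_num
  -- first error term
  have e1 : ψ ((7 * N / 6 : ℕ) : ℝ) - θ ((7 * N / 6 : ℕ) : ℝ) ≤ 16.16 * (1.0802 * u) := by
    have h1 : (1 : ℝ) ≤ ((7 * N / 6 : ℕ) : ℝ) := by
      exact_mod_cast (by omega : 1 ≤ 7 * N / 6)
    refine (psi_sub_theta_le_sqrt h1).trans ?_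
    have h2 : √((7 * N / 6 : ℕ) : ℝ) ≤ 1.0802 * u := by
      apply Real.sqrt_le_iff.2
      constructor
      · positivity
      · have h3 : ((7 * N / 6 : ℕ) : ℝ) ≤ (7 * N : ℕ) / (6 : ℕ) := Nat.cast_div_le
        push_cast at h3
        nlinarith
    apply mul_le_mul _ h2 (Real.sqrt_nonneg _) (by norm_num)
    rw [hl4]; linarith
  have e2 : ψ ((7 * 1 * N / 1517 : ℕ) : ℝ) ≤ 1.3863 * (7 / 1517 * N) + 16.16 * (0.068 * u) := by
    have h1 : (1 : ℝ) ≤ ((7 * 1 * N / 1517 : ℕ) : ℝ) := by
      exact_mod_cast (by omega : 1 ≤ 7 * 1 * N / 1517)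
    refine (psi_le_sqrt h1).trans ?_
    have h3 : ((7 * 1 * N / 1517 : ℕ) : ℝ) ≤ (7 * 1 * N : ℕ) / (1517 : ℕ) := Nat.cast_div_le
    push_cast at h3
    have h2 : √((7 * 1 * N / 1517 : ℕ) : ℝ) ≤ 0.068 * u := by
      apply Real.sqrt_le_iff.2
      constructor
      · positivity
      · nlinarith
    apply add_le_add
    · apply mul_le_mul _ (by linarith) (by positivity) (by norm_num)
      rw [hl4]; linarith
    · apply mul_le_mul _ h2 (Real.sqrt_nonneg _) (by norm_num)
      rw [hl4]; linarith
  -- the logarithm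
  have e3 : Real.log ((7 * 1 * N : ℕ) : ℝ) ≤ 3 * Real.log 2 + 2 * (9 * Real.log 2 + (u - 512) / 512) := by
    have h1 : ((7 * 1 * N : ℕ) : ℝ) ≤ 2 ^ 3 * (u * u) := by
      push_cast; rw [hu2]; linarith
    refine (Real.log_le_log (by push_cast; linarith) h1).trans ?_
    rw [Real.log_mul (by positivity) (by positivity), Real.log_pow,
      Real.log_mul (by positivity) (by positivity)]
    have h2 : Real.log u ≤ 9 * Real.log 2 + (u - 512) / 512 := by
      have h3 := Real.log_le_sub_one_of_pos (x := u / 512) (by positivity)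
      rw [Real.log_div (by positivity) (by norm_num)] at h3
      have h4 : Real.log 512 = 9 * Real.log 2 := by
        rw [show (512 : ℝ) = 2 ^ 9 by norm_num, Real.log_pow]; norm_num
      rw [h4] at h3
      have h5 : (u - 512) / 512 = u / 512 - 1 := by ring
      linarith
    push_cast
    linarith
  have hc := cert76_const
  have hmain := hlo.trans hup
  push_cast at hmain e1 e2 e3
  set c : ℝ := 49 / 45 * Real.log 7 - 19 / 20 * (Real.log 2 + Real.log 3) - 11 / 72 * Real.log 5
  have h7 : (0.169 : ℝ) * N ≤ c * N := by nlinarith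
  have h8 : 7 * (N : ℝ) * (-(1 / 7) * c) = - (c * N) := by ring
  rw [h8] at hmain
  have h9 : (3 : ℝ) * (ψ ((7 * N / 6 : ℕ) : ℝ) - θ ((7 * N / 6 : ℕ) : ℝ)) ≤ 3 * (16.16 * (1.0802 * u)) := by
    linarith
  nlinarith

end Pool.Agent.Lib.Helper15

namespace Pool.Agent.Lib.Helper15

theorem prime_step {N : ℕ} (q : ℕ) {p : ℕ} (hp : p.Prime) (hcov : 6 * p ≤ 7 * (q + 1))
    (H : N ≤ q → ∃ p : ℕ, p.Prime ∧ N ≤ p ∧ 6 * p ≤ 7 * N) (hn : N ≤ p) :
    ∃ p : ℕ, p.Prime ∧ N ≤ p ∧ 6 * p ≤ 7 * N := by
  by_cases h : N ≤ q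
  · exact H h
  · exact ⟨p, hp, hn, by omega⟩

theorem exists_prime_chain {N : ℕ} (h25 : 25 ≤ N) (hN : N ≤ 262147) :
    ∃ p : ℕ, p.Prime ∧ N ≤ p ∧ 6 * p ≤ 7 * N := by
  refine prime_step 224699 (p := 262147) (by norm_num) (by norm_num) ?_ hN; clear hN; intro hN
  refine prime_step 192601 (p := 224699) (by norm_num) (by norm_num) ?_ hN; clear hN; intro hN
  refine prime_step 165089 (p := 192601) (by norm_num) (by norm_num) ?_ hN; clear hN; intro hN
  refine prime_step 141509 (p := 165089) (by norm_num) (by norm_num) ?_ hN; clear hN; intro hN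
  refine prime_step 121309 (p := 141509) (by norm_num) (by norm_num) ?_ hN; clear hN; intro hN
  refine prime_step 103979 (p := 121309) (by norm_num) (by norm_num) ?_ hN; clear hN; intro hN
  refine prime_step 89137 (p := 103979) (by norm_num) (by norm_num) ?_ hN; clear hN; intro hN
  refine prime_step 76403 (p := 89137) (by norm_num) (by norm_num) ?_ hN; clear hN; intro hN
  refine prime_step 65497 (p := 76403) (by norm_num) (by norm_num) ?_ hN; clear hN; intro hN
  refine prime_step 56149 (p := 65497) (by norm_num) (by norm_num) ?_ hN; clear hN; intro hN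
  refine prime_step 48131 (p := 56149) (by norm_num) (by norm_num) ?_ hN; clear hN; intro hN
  refine prime_step 41257 (p := 48131) (by norm_num) (by norm_num) ?_ hN; clear hN; intro hN
  refine prime_step 35363 (p := 41257) (by norm_num) (by norm_num) ?_ hN; clear hN; intro hN
  refine prime_step 30313 (p := 35363) (by norm_num) (by norm_num) ?_ hN; clear hN; intro hN
  refine prime_step 25997 (p := 30313) (by norm_num) (by norm_num) ?_ hN; clear hN; intro hN
  refine prime_step 22283 (p := 25997) (by norm_num) (by norm_num) ?_ hN; clear hN; intro hN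
  refine prime_step 19121 (p := 22283) (by norm_num) (by norm_num) ?_ hN; clear hN; intro hN
  refine prime_step 16411 (p := 19121) (by norm_num) (by norm_num) ?_ hN; clear hN; intro hN
  refine prime_step 14071 (p := 16411) (by norm_num) (by norm_num) ?_ hN; clear hN; intro hN
  refine prime_step 12071 (p := 14071) (by norm_num) (by norm_num) ?_ hN; clear hN; intro hN
  refine prime_step 10357 (p := 12071) (by norm_num) (by norm_num) ?_ hN; clear hN; intro hN
  refine prime_step 8887 (p := 10357) (by norm_num) (by norm_num) ?_ hN; clear hN; intro hN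
  refine prime_step 7621 (p := 8887) (by norm_num) (by norm_num) ?_ hN; clear hN; intro hN
  refine prime_step 6547 (p := 7621) (by norm_num) (by norm_num) ?_ hN; clear hN; intro hN
  refine prime_step 5623 (p := 6547) (by norm_num) (by norm_num) ?_ hN; clear hN; intro hN
  refine prime_step 4831 (p := 5623) (by norm_num) (by norm_num) ?_ hN; clear hN; intro hN
  refine prime_step 4153 (p := 4831) (by norm_num) (by norm_num) ?_ hN; clear hN; intro hN
  refine prime_step 3559 (p := 4153) (by norm_num) (by norm_num) ?_ hN; clear hN; intro hN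
  refine prime_step 3061 (p := 3559) (by norm_num) (by norm_num) ?_ hN; clear hN; intro hN
  refine prime_step 2633 (p := 3061) (by norm_num) (by norm_num) ?_ hN; clear hN; intro hN
  refine prime_step 2267 (p := 2633) (by norm_num) (by norm_num) ?_ hN; clear hN; intro hN
  refine prime_step 1949 (p := 2267) (by norm_num) (by norm_num) ?_ hN; clear hN; intro hN
  refine prime_step 1693 (p := 1949) (by norm_num) (by norm_num) ?_ hN; clear hN; intro hN
  refine prime_step 1451 (p := 1693) (by norm_num) (by norm_num) ?_ hN; clear hN; intro hN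
  refine prime_step 1249 (p := 1451) (by norm_num) (by norm_num) ?_ hN; clear hN; intro hN
  refine prime_step 1087 (p := 1249) (by norm_num) (by norm_num) ?_ hN; clear hN; intro hN
  refine prime_step 937 (p := 1087) (by norm_num) (by norm_num) ?_ hN; clear hN; intro hN
  refine prime_step 809 (p := 937) (by norm_num) (by norm_num) ?_ hN; clear hN; intro hN
  refine prime_step 701 (p := 809) (by norm_num) (by norm_num) ?_ hN; clear hN; intro hN
  refine prime_step 601 (p := 701) (by norm_num) (by norm_num) ?_ hN; clear hN; intro hN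
  refine prime_step 521 (p := 601) (by norm_num) (by norm_num) ?_ hN; clear hN; intro hN
  refine prime_step 449 (p := 521) (by norm_num) (by norm_num) ?_ hN; clear hN; intro hN
  refine prime_step 389 (p := 449) (by norm_num) (by norm_num) ?_ hN; clear hN; intro hN
  refine prime_step 337 (p := 389) (by norm_num) (by norm_num) ?_ hN; clear hN; intro hN
  refine prime_step 293 (p := 337) (by norm_num) (by norm_num) ?_ hN; clear hN; intro hN
  refine prime_step 251 (p := 293) (by norm_num) (by norm_num) ?_ hN; clear hN; intro hN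
  refine prime_step 223 (p := 251) (by norm_num) (by norm_num) ?_ hN; clear hN; intro hN
  refine prime_step 191 (p := 223) (by norm_num) (by norm_num) ?_ hN; clear hN; intro hN
  refine prime_step 163 (p := 191) (by norm_num) (by norm_num) ?_ hN; clear hN; intro hN
  refine prime_step 139 (p := 163) (by norm_num) (by norm_num) ?_ hN; clear hN; intro hN
  refine prime_step 127 (p := 139) (by norm_num) (by norm_num) ?_ hN; clear hN; intro hN
  refine prime_step 109 (p := 127) (by norm_num) (by norm_num) ?_ hN; clear hN; intro hN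
  refine prime_step 97 (p := 109) (by norm_num) (by norm_num) ?_ hN; clear hN; intro hN
  refine prime_step 83 (p := 97) (by norm_num) (by norm_num) ?_ hN; clear hN; intro hN
  refine prime_step 71 (p := 83) (by norm_num) (by norm_num) ?_ hN; clear hN; intro hN
  refine prime_step 61 (p := 71) (by norm_num) (by norm_num) ?_ hN; clear hN; intro hN
  refine prime_step 53 (p := 61) (by norm_num) (by norm_num) ?_ hN; clear hN; intro hN
  refine prime_step 47 (p := 53) (by norm_num) (by norm_num) ?_ hN; clear hN; intro hN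
  refine prime_step 41 (p := 47) (by norm_num) (by norm_num) ?_ hN; clear hN; intro hN
  refine prime_step 37 (p := 41) (by norm_num) (by norm_num) ?_ hN; clear hN; intro hN
  refine prime_step 31 (p := 37) (by norm_num) (by norm_num) ?_ hN; clear hN; intro hN
  refine prime_step 29 (p := 31) (by norm_num) (by norm_num) ?_ hN; clear hN; intro hN
  refine prime_step 24 (p := 29) (by norm_num) (by norm_num) ?_ hN; clear hN; intro hN
  omega

/-- For every `N ≥ 25` there is a prime `p` with `N ≤ p ≤ 7 * N / 6`. -/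
theorem exists_prime_seven_sixths {N : ℕ} (h25 : 25 ≤ N) :
    ∃ p : ℕ, p.Prime ∧ N ≤ p ∧ 6 * p ≤ 7 * N := by
  by_cases h : N < 262144
  · exact exists_prime_chain h25 (by omega)
  · obtain ⟨p, h1, h2, h3⟩ := exists_prime_of_large (N := N) (by omega)
    exact ⟨p, h1, h2.le, h3⟩

end Pool.Agent.Lib.Helper15
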